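import Pool.Agent.H124R2.Vis.GenPos

/-!
# Counting the family up to isomorphism
-/

namespace Vis124

open Classical

/-- colour of a vertex index: `0` for the vertices on the left, `1` for the peaks, `2` for the
pits -/
def col (m c : ℕ) : Fin 3 := if c < m then 0 else if (c - m) % 2 = 0 then 1 else 2

/-- the visibility graph of the polygon -/
noncomputable def G (m k : ℕ) (f : ℕ → ℕ) : SimpleGraph (Fin (m + 2 * k + 1)) :=
  visGraph (fun i => vtx m k f i) (poly m k f)

variable {m k : ℕ} {f g : ℕ → ℕ}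

theorem col_eq_zero {c : ℕ} : col m c = 0 ↔ c < m := by
  unfold col; split_ifs <;> simp_all

theorem col_eq_one {c : ℕ} : col m c = 1 ↔ m ≤ c ∧ (c - m) % 2 = 0 := by
  unfold col
  split_ifs with h h'
  · simp; omega
  · simp; omega
  · simp; omega

theorem col_eq_two {c : ℕ} : col m c = 2 ↔ m ≤ c ∧ (c - m) % 2 = 1 := by
  unfold col
  split_ifs with h h'
  · simp; omega
  · simp; omega
  · simp; omega

theorem card_O (hm : 1 ≤ m) (hk : 1 ≤ k) (hf : ∀ j, j < k → f j ≤ m) {j : ℕ} (hj : j < k) :
    (Finset.univ.filter (fun y : Fin (m + 2 * k + 1) =>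
      (G m k f).Adj ⟨m + 2 * j + 1, by omega⟩ y ∧ col m y = 1)).card = k + 1 - j := by
  rw [← Nat.card_Icc j k]
  symm
  apply Finset.card_bij (fun j' hj' => (⟨m + 2 * j', by
    have := (Finset.mem_Icc.1 hj').2; omega⟩ : Fin (m + 2 * k + 1)))
  · intro j' hj'
    have h1 := Finset.mem_Icc.1 hj'
    simp only [Finset.mem_filter, Finset.mem_univ, true_and]
    refine ⟨⟨?_, ?_⟩, ?_⟩
    · intro h
      have := congrArg Fin.val h
      simp only at this
      omega
    · exact (vis_R_O hm hk hj h1.2 (hf j hj)).2 h1.1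
    · rw [col_eq_one]
      omega
  · intro a ha b hb hab
    have := congrArg Fin.val hab
    simp only at this
    omega
  · intro y hy
    simp only [Finset.mem_filter, Finset.mem_univ, true_and] at hy
    obtain ⟨⟨h1, h2⟩, h3⟩ := hy
    rw [col_eq_one] at h3
    have hy2 := y.2
    have h4 : (y : ℕ) = m + 2 * ((y - m) / 2) := by omega
    refine ⟨((y : ℕ) - m) / 2, ?_, ?_⟩
    · rw [Finset.mem_Icc]
      refine ⟨?_, by omega⟩
      simp only at h2
      rw [h4] at h2
      exact (vis_R_O hm hk hj (by omega) (hf j hj)).1 h2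
    · apply Fin.ext
      exact h4.symm

theorem card_L (hm : 1 ≤ m) (hk : 1 ≤ k) {j : ℕ} (hj : j < k) :
    (Finset.univ.filter (fun y : Fin (m + 2 * k + 1) =>
      (G m k f).Adj ⟨m + 2 * j + 1, by omega⟩ y ∧ col m y = 0)).card = m - f j := by
  rw [← Nat.card_Ioc (f j) m]
  symm
  apply Finset.card_bij (fun i hi => (⟨m - i, by omega⟩ : Fin (m + 2 * k + 1)))
  · intro i hi
    have h1 := Finset.mem_Ioc.1 hi
    simp only [Finset.mem_filter, Finset.mem_univ, true_and]
    refine ⟨⟨?_, ?_⟩, ?_⟩
    · intro h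
      have := congrArg Fin.val h
      simp only at this
      omega
    · exact (vis_R_L hm hk hj (by omega) h1.2).2 h1.1
    · rw [col_eq_zero]
      omega
  · intro a ha b hb hab
    have h1 := (Finset.mem_Ioc.1 ha)
    have h2 := (Finset.mem_Ioc.1 hb)
    have := congrArg Fin.val hab
    simp only at this
    omega
  · intro y hy
    simp only [Finset.mem_filter, Finset.mem_univ, true_and] at hy
    obtain ⟨⟨h1, h2⟩, h3⟩ := hy
    rw [col_eq_zero] at h3
    have h4 : (y : ℕ) = m - (m - y) := by omega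
    refine ⟨m - y, ?_, ?_⟩
    · rw [Finset.mem_Ioc]
      refine ⟨?_, by omega⟩
      simp only at h2
      rw [h4] at h2
      exact (vis_R_L hm hk hj (by omega) (by omega)).1 h2
    · apply Fin.ext
      exact h4.symm

/-- The colour-preserving isomorphism type determines the parameters. -/
theorem recover (hm : 1 ≤ m) (hk : 1 ≤ k) (hf : ∀ j, j < k → f j ≤ m) (hg : ∀ j, j < k → g j ≤ m)
    (ρ : G m k f ≃g G m k g) (hρ : ∀ x : Fin (m + 2 * k + 1), col m (ρ x) = col m x)
    {j : ℕ} (hj : j < k) : f j = g j := by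
  have hcard : ∀ (x : Fin (m + 2 * k + 1)) (c : Fin 3),
      (Finset.univ.filter (fun y : Fin (m + 2 * k + 1) => (G m k f).Adj x y ∧ col m y = c)).card =
      (Finset.univ.filter (fun y : Fin (m + 2 * k + 1) =>
        (G m k g).Adj (ρ x) y ∧ col m y = c)).card := by
    intro x c
    apply Finset.card_bij (fun y _ => ρ y)
    · intro y hy
      simp only [Finset.mem_filter, Finset.mem_univ, true_and] at hy ⊢
      exact ⟨ρ.map_adj_iff.2 hy.1, by rw [hρ]; exact hy.2⟩
    · intro a _ b _ h
      exact ρ.injective h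
    · intro y hy
      simp only [Finset.mem_filter, Finset.mem_univ, true_and] at hy
      refine ⟨ρ.symm y, ?_, by simp⟩
      simp only [Finset.mem_filter, Finset.mem_univ, true_and]
      refine ⟨?_, ?_⟩
      · have := ρ.map_adj_iff (v := x) (w := ρ.symm y)
        rw [RelIso.apply_symm_apply] at this
        exact this.1 hy.1
      · rw [← hρ]; simpa using hy.2
  set x : Fin (m + 2 * k + 1) := ⟨m + 2 * j + 1, by omega⟩ with hx
  have h2 : col m (ρ x) = 2 := by
    rw [hρ, col_eq_two]
    simp only [hx]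
    omega
  rw [col_eq_two] at h2
  have hb := (ρ x).2
  obtain ⟨j', hj', hxj⟩ : ∃ (j' : ℕ) (hj' : j' < k), ρ x = ⟨m + 2 * j' + 1, by omega⟩ := by
    refine ⟨((ρ x : ℕ) - m) / 2, by omega, ?_⟩
    apply Fin.ext
    simp only
    omega
  have e1 := hcard x 1
  rw [hxj, card_O hm hk hg hj', hx, card_O hm hk hf hj] at e1
  have hjj : j' = j := by omega
  subst hjj
  have e2 := hcard x 0
  rw [hxj, card_L hm hk hj, card_L hm hk hj] at e2
  have := hf j' hj
  have := hg j' hj
  omega

/-- extension of a function on `Fin k` -/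
def ext (F : Fin k → Fin (m + 1)) : ℕ → ℕ := fun j => if h : j < k then (F ⟨j, h⟩ : ℕ) else 0

theorem ext_le (F : Fin k → Fin (m + 1)) (j : ℕ) (hj : j < k) : ext F j ≤ m := by
  unfold ext
  rw [dif_pos hj]
  have := (F ⟨j, hj⟩).2
  omega

/-- isomorphism of equal graphs -/
def isoOfEq {n : ℕ} {H H' : SimpleGraph (Fin n)} (h : H = H') : H ≃g H' :=
  ⟨Equiv.refl _, by intro a b; subst h; rfl⟩

theorem count (hm : 1 ≤ m) (hk : 1 ≤ k) :
    (m + 1) ^ k ≤ NGP (m + 2 * k + 1) * 3 ^ (m + 2 * k + 1) := by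
  set n := m + 2 * k + 1 with hn
  have : Finite (Quotient (isoSetoid n)) := Quotient.finite _
  have hφ : ∀ F : Fin k → Fin (m + 1),
      Nonempty ((Quotient.mk (isoSetoid n) (G m k (ext F))).out ≃g G m k (ext F)) :=
    fun F => Quotient.mk_out (s := isoSetoid n) (G m k (ext F))
  have φ : ∀ F : Fin k → Fin (m + 1),
      (Quotient.mk (isoSetoid n) (G m k (ext F))).out ≃g G m k (ext F) :=
    fun F => Classical.choice (hφ F)
  -- the injection
  let Ψ : (Fin k → Fin (m + 1)) → (visClassesGP n) × (Fin n → Fin 3) := fun F =>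
    (⟨Quotient.mk (isoSetoid n) (G m k (ext F)),
      ⟨fun i => vtx m k (ext F) i, poly m k (ext F), poly_isSimple hm hk,
        family_generalPosition (ext_le F), rfl⟩⟩, fun x => col m ((φ F) x))
  have hΨ : Function.Injective Ψ := by
    intro F F' h
    have h1 : Quotient.mk (isoSetoid n) (G m k (ext F)) =
        Quotient.mk (isoSetoid n) (G m k (ext F')) :=
      congrArg Subtype.val (congrArg Prod.fst h)
    have h2 : (fun x : Fin n => col m ((φ F) x)) = fun x => col m ((φ F') x) :=
      congrArg Prod.snd h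
    have h3 : (Quotient.mk (isoSetoid n) (G m k (ext F))).out =
        (Quotient.mk (isoSetoid n) (G m k (ext F'))).out := by rw [h1]
    let ρ : G m k (ext F) ≃g G m k (ext F') := ((φ F).symm.trans (isoOfEq h3)).trans (φ F')
    have hρ : ∀ x : Fin n, col m (ρ x) = col m x := by
      intro x
      have h4 : ρ x = φ F' ((φ F).symm x) := rfl
      rw [h4]
      have h5 : col m (φ F ((φ F).symm x)) = col m (φ F' ((φ F).symm x)) :=
        congrFun h2 ((φ F).symm x)
      rw [← h5, RelIso.apply_symm_apply]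
    funext j
    have h6 := recover hm hk (ext_le F) (ext_le F') ρ hρ j.2
    unfold ext at h6
    rw [dif_pos j.2, dif_pos j.2] at h6
    exact Fin.ext h6
  have h := Nat.card_le_card_of_injective Ψ hΨ
  rw [Nat.card_prod] at h
  rw [Nat.card_fun, Nat.card_fun, Nat.card_fin, Nat.card_fin, Nat.card_fin, Nat.card_fin] at h
  rwa [Nat.card_coe_set_eq] at h

end Vis124
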