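import Pool.Agent.H124R2.Vis.Terrain

/-!
# The explicit family of polygons
-/

namespace Vis124

open Set

/-- `y` is below the line `AB` at `x`: cross-multiplied form. -/
theorem le_lineH_iff {A B : ℝ × ℝ} (h : A.1 < B.1) {x y : ℝ} :
    y ≤ lineH A B x ↔ (y - A.2) * (B.1 - A.1) ≤ (B.2 - A.2) * (x - A.1) := by
  unfold lineH
  have h0 : 0 < B.1 - A.1 := by linarith
  rw [← sub_le_iff_le_add', div_mul_eq_mul_div, le_div_iff₀ h0]

/-- the small number -/
noncomputable def eps (m k : ℕ) : ℝ := 1 / (64 * ((m : ℝ) + k + 4) ^ 2)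

theorem eps_pos (m k : ℕ) : 0 < eps m k := by unfold eps; positivity

theorem eps_mul_sq (m k : ℕ) : eps m k * ((m : ℝ) + k + 4) ^ 2 = 1 / 64 := by
  unfold eps
  have : (m : ℝ) + k + 4 ≠ 0 := by positivity
  field_simp

theorem eps_mul (m k : ℕ) : eps m k * ((m : ℝ) + k + 4) ≤ 1 / 64 := by
  have h1 := eps_mul_sq m k
  have h2 := eps_pos m k
  have h3 : (0:ℝ) ≤ m := Nat.cast_nonneg m
  have h4 : (0:ℝ) ≤ k := Nat.cast_nonneg k
  have h5 : ((m : ℝ) + k + 4) ≤ ((m : ℝ) + k + 4) ^ 2 := by nlinarith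
  calc eps m k * ((m : ℝ) + k + 4) ≤ eps m k * ((m : ℝ) + k + 4) ^ 2 :=
        mul_le_mul_of_nonneg_left h5 h2.le
    _ = 1 / 64 := h1

theorem eps_le (m k : ℕ) : eps m k ≤ 1 / 64 := by
  have h1 := eps_mul m k
  have h2 := eps_pos m k
  have h3 : (0:ℝ) ≤ m := Nat.cast_nonneg m
  have h4 : (0:ℝ) ≤ k := Nat.cast_nonneg k
  nlinarith

/-- The vertices, ordered by their first coordinate. -/
noncomputable def vtx (m k : ℕ) (f : ℕ → ℕ) (c : ℕ) : ℝ × ℝ :=
  if c < m then (-((m : ℝ) - c), ((m : ℝ) - c) ^ 2)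
  else if (c - m) % 2 = 0 then ((((c - m) / 2 : ℕ) : ℝ) + 1, ((((c - m) / 2 : ℕ) : ℝ) + 1) ^ 2)
  else ((((c - m) / 2 : ℕ) : ℝ) + 1 + eps m k,
    ((((c - m) / 2 : ℕ) : ℝ) + 1) ^ 2 +
      eps m k * ((((c - m) / 2 : ℕ) : ℝ) + 1 - ((f ((c - m) / 2) : ℝ) + 1 / 2)))

variable {m k : ℕ} {f : ℕ → ℕ}

theorem vtx_L {i : ℕ} (h1 : 1 ≤ i) (h2 : i ≤ m) :
    vtx m k f (m - i) = (-(i : ℝ), (i : ℝ) ^ 2) := by
  unfold vtx
  rw [if_pos (by omega), Nat.cast_sub h2]
  simp

theorem vtx_O (j : ℕ) : vtx m k f (m + 2 * j) = ((j : ℝ) + 1, ((j : ℝ) + 1) ^ 2) := by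
  unfold vtx
  have h1 : (m + 2 * j - m) / 2 = j := by omega
  have h2 : (m + 2 * j - m) % 2 = 0 := by omega
  rw [if_neg (by omega), if_pos h2, h1]

theorem vtx_R (j : ℕ) : vtx m k f (m + 2 * j + 1) = ((j : ℝ) + 1 + eps m k,
    ((j : ℝ) + 1) ^ 2 + eps m k * ((j : ℝ) + 1 - ((f j : ℝ) + 1 / 2))) := by
  unfold vtx
  have h1 : (m + 2 * j + 1 - m) / 2 = j := by omega
  have h2 : (m + 2 * j + 1 - m) % 2 ≠ 0 := by omega
  rw [if_neg (by omega), if_neg h2, h1]

theorem vtx_cases (c : ℕ) : (∃ i, 1 ≤ i ∧ i ≤ m ∧ c = m - i) ∨ (∃ j, c = m + 2 * j) ∨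
    (∃ j, c = m + 2 * j + 1) := by
  rcases Nat.lt_or_ge c m with h | h
  · left; exact ⟨m - c, by omega, by omega, by omega⟩
  · right
    rcases Nat.even_or_odd' (c - m) with ⟨j, hj | hj⟩
    · left; exact ⟨j, by omega⟩
    · right; exact ⟨j, by omega⟩

theorem vtx_lt {c : ℕ} : (vtx m k f c).1 < (vtx m k f (c + 1)).1 := by
  have he := eps_pos m k
  have he' := eps_le m k
  rcases vtx_cases (m := m) c with ⟨i, h1, h2, rfl⟩ | ⟨j, rfl⟩ | ⟨j, rfl⟩
  · rw [vtx_L h1 h2]
    rcases Nat.eq_or_lt_of_le h1 with h | h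
    · subst h
      have : m - 1 + 1 = m + 2 * 0 := by omega
      rw [this, vtx_O]
      norm_num
    · have : m - i + 1 = m - (i - 1) := by omega
      rw [this, vtx_L (by omega) (by omega)]
      have h5 : ((i - 1 : ℕ) : ℝ) = (i : ℝ) - 1 := by
        rw [Nat.cast_sub h1]; simp
      simp only [h5]
      linarith
  · rw [vtx_O, vtx_R]
    simp only
    linarith
  · have : m + 2 * j + 1 + 1 = m + 2 * (j + 1) := by ring
    rw [vtx_R, this, vtx_O]
    push_cast
    linarith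

theorem vtx_smono {a b : ℕ} (hab : a < b) : (vtx m k f a).1 < (vtx m k f b).1 :=
  smono_of (w := vtx m k f) (M := b) (fun _ _ => vtx_lt) hab le_rfl

theorem vtx_mono {a b : ℕ} (hab : a ≤ b) : (vtx m k f a).1 ≤ (vtx m k f b).1 :=
  mono_of (w := vtx m k f) (M := b) (fun _ _ => vtx_lt) hab le_rfl

/-- all vertices lie on or below the parabola -/
theorem vtx_below (c : ℕ) : (vtx m k f c).2 ≤ (vtx m k f c).1 ^ 2 := by
  have he := eps_pos m k
  rcases vtx_cases (m := m) c with ⟨i, h1, h2, rfl⟩ | ⟨j, rfl⟩ | ⟨j, rfl⟩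
  · rw [vtx_L h1 h2]; simp
  · rw [vtx_O]
  · rw [vtx_R]
    simp only
    have h3 : (0:ℝ) ≤ j := Nat.cast_nonneg j
    have h4 : (0:ℝ) ≤ f j := Nat.cast_nonneg _
    nlinarith [mul_nonneg he.le h3, mul_nonneg he.le h4, mul_nonneg he.le he.le]

section
variable (hm : 1 ≤ m)
include hm

theorem vtx_zero : vtx m k f 0 = (-(m : ℝ), (m : ℝ) ^ 2) := by
  have := vtx_L (m := m) (k := k) (f := f) hm le_rfl
  simpa using this

theorem vtx_top0 : (vtx m k f 0).2 = ((k : ℝ) + 1 - m) * (vtx m k f 0).1 + m * (k + 1) := by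
  rw [vtx_zero hm]; simp only; ring

omit hm in
theorem vtx_top1 : (vtx m k f (m + 2 * k)).2 =
    ((k : ℝ) + 1 - m) * (vtx m k f (m + 2 * k)).1 + m * (k + 1) := by
  rw [vtx_O]; simp only; ring

theorem vtx_top2 (i : ℕ) (h0 : 0 < i) (h1 : i < m + 2 * k) :
    (vtx m k f i).2 < ((k : ℝ) + 1 - m) * (vtx m k f i).1 + m * (k + 1) := by
  have h2 := vtx_smono (m := m) (k := k) (f := f) h0
  have h3 := vtx_smono (m := m) (k := k) (f := f) h1
  have h4 := vtx_below (m := m) (k := k) (f := f) i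
  rw [vtx_zero hm] at h2
  rw [vtx_O] at h3
  simp only at h2 h3
  nlinarith

end

/-- The polygon. -/
noncomputable def poly (m k : ℕ) (f : ℕ → ℕ) : Set (ℝ × ℝ) :=
  Reg (pl (vtx m k f) (m + 2 * k)) (fun x => ((k : ℝ) + 1 - m) * x + m * (k + 1))
    (vtx m k f 0).1 (vtx m k f (m + 2 * k)).1

theorem poly_isSimple (hm : 1 ≤ m) (hk : 1 ≤ k) :
    IsSimplePolygon (fun i : Fin (m + 2 * k + 1) => vtx m k f i) (poly m k f) :=
  terrain_isSimplePolygon (w := vtx m k f) (by omega) (fun _ _ => vtx_lt) (vtx_top0 hm) vtx_top1 (vtx_top2 hm)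

theorem poly_vis_iff (hm : 1 ≤ m) (hk : 1 ≤ k) {a b : ℕ} (hab : a < b) (hb : b ≤ m + 2 * k) :
    segment ℝ (vtx m k f a) (vtx m k f b) ⊆ poly m k f ↔
      ∀ c, a < c → c < b →
        ((vtx m k f c).2 - (vtx m k f a).2) * ((vtx m k f b).1 - (vtx m k f a).1) ≤
          ((vtx m k f b).2 - (vtx m k f a).2) * ((vtx m k f c).1 - (vtx m k f a).1) := by
  rw [poly, segment_subset_iff (w := vtx m k f) (by omega) (fun _ _ => vtx_lt) (vtx_top0 hm) vtx_top1
    (vtx_top2 hm) hab hb]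
  constructor
  · intro h c h1 h2
    exact (le_lineH_iff (vtx_smono hab)).1 (h c h1 h2)
  · intro h c h1 h2
    exact (le_lineH_iff (vtx_smono hab)).2 (h c h1 h2)

/-- visibility between a pit and a peak -/
theorem vis_R_O (hm : 1 ≤ m) (hk : 1 ≤ k) {j j' : ℕ} (hj : j < k) (hj' : j' ≤ k)
    (hf : f j ≤ m) :
    segment ℝ (vtx m k f (m + 2 * j + 1)) (vtx m k f (m + 2 * j')) ⊆ poly m k f ↔ j ≤ j' := by
  have he := eps_pos m k
  have he' := eps_le m k
  have hem := eps_mul m k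
  have hjk : (j : ℝ) + 1 ≤ k := by exact_mod_cast hj
  have hfm : (f j : ℝ) ≤ m := by exact_mod_cast hf
  have hj0 : (0:ℝ) ≤ j := Nat.cast_nonneg j
  have hf0 : (0:ℝ) ≤ f j := Nat.cast_nonneg _
  rcases lt_or_ge j' j with h | h
  · -- not visible
    have hj'0 : (0:ℝ) ≤ j' := Nat.cast_nonneg j'
    have hjj : (j' : ℝ) + 1 ≤ j := by exact_mod_cast h
    refine iff_of_false ?_ (by omega)
    rw [segment_symm, poly_vis_iff hm hk (by omega) (by omega)]
    intro hc
    have := hc (m + 2 * j) (by omega) (by omega)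
    rw [vtx_O, vtx_O, vtx_R] at this
    simp only at this
    have h5 : 0 < ((j : ℝ) - j') * (eps m k * ((j' : ℝ) + 1 + ((f j : ℝ) + 1 / 2))) := by
      apply mul_pos (by linarith)
      apply mul_pos he
      linarith
    nlinarith
  · refine iff_of_true ?_ h
    rcases Nat.eq_or_lt_of_le h with h | h
    · subst h
      rw [segment_symm, poly_vis_iff hm hk (by omega) (by omega)]
      intro c h1 h2
      omega
    · rw [poly_vis_iff hm hk (by omega) (by omega)]
      intro c h1 h2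
      have h3 : (vtx m k f c).1 ≤ (vtx m k f (m + 2 * j')).1 := vtx_mono (by omega)
      have h4 : (vtx m k f (m + 2 * (j + 1))).1 ≤ (vtx m k f c).1 := vtx_mono (by omega)
      have h5 := vtx_below (m := m) (k := k) (f := f) c
      rw [vtx_O] at h3 h4
      rw [vtx_O, vtx_R]
      push_cast at h4
      simp only at h3 h4 ⊢
      set x := (vtx m k f c).1
      set y := (vtx m k f c).2
      set e := eps m k
      have hjj : (j : ℝ) + 1 ≤ j' := by exact_mod_cast h
      set r : ℝ := (j : ℝ) + 1 with hr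
      set r' : ℝ := (j' : ℝ) + 1 with hr'
      set l : ℝ := (f j : ℝ) + 1 / 2 with hl
      have hrr : r + 1 ≤ r' := by rw [hr, hr']; linarith
      -- the key inequality
      have h6 : 0 ≤ (r' - (r + e)) * (x - (r + e)) - e * (r + e + l) := by
        have h7 : e * (r + e + l) ≤ 1 / 2 := by
          have : r + e + l ≤ (m : ℝ) + k + 4 := by
            rw [hr, hl]; linarith
          calc e * (r + e + l) ≤ e * ((m : ℝ) + k + 4) := mul_le_mul_of_nonneg_left this he.le
            _ ≤ 1 / 64 := hem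
            _ ≤ 1 / 2 := by norm_num
        have h8 : (1 - e) * (1 - e) ≤ (r' - (r + e)) * (x - (r + e)) := by
          apply mul_le_mul
          · linarith
          · linarith
          · linarith
          · linarith
        nlinarith
      have h9 : (y - (r ^ 2 + e * (r - l))) * (r' - (r + e)) ≤
          (x ^ 2 - (r ^ 2 + e * (r - l))) * (r' - (r + e)) := by
        apply mul_le_mul_of_nonneg_right
        · linarith
        · linarith
      refine h9.trans ?_
      have h10 : (r' ^ 2 - (r ^ 2 + e * (r - l))) * (x - (r + e)) -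
          (x ^ 2 - (r ^ 2 + e * (r - l))) * (r' - (r + e)) =
          (r' - x) * ((r' - (r + e)) * (x - (r + e)) - e * (r + e + l)) := by ring
      have h11 : 0 ≤ (r' - x) * ((r' - (r + e)) * (x - (r + e)) - e * (r + e + l)) :=
        mul_nonneg (by linarith) h6
      linarith

/-- visibility between a pit and a vertex on the left -/
theorem vis_R_L (hm : 1 ≤ m) (hk : 1 ≤ k) {j i : ℕ} (hj : j < k) (hi : 1 ≤ i) (him : i ≤ m) :
    segment ℝ (vtx m k f (m + 2 * j + 1)) (vtx m k f (m - i)) ⊆ poly m k f ↔ f j < i := by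
  have he := eps_pos m k
  have he' := eps_le m k
  have hj0 : (0:ℝ) ≤ j := Nat.cast_nonneg j
  have hi0 : (1:ℝ) ≤ i := by exact_mod_cast hi
  rw [segment_symm, poly_vis_iff hm hk (by omega) (by omega)]
  rcases lt_or_ge (f j) i with h | h
  · refine iff_of_true ?_ h
    intro c h1 h2
    have hfi : (f j : ℝ) + 1 ≤ i := by exact_mod_cast h
    have h3 : (vtx m k f c).1 ≤ (vtx m k f (m + 2 * j)).1 := vtx_mono (by omega)
    have h4 : (vtx m k f (m - i)).1 ≤ (vtx m k f c).1 := vtx_mono (by omega)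
    have h5 := vtx_below (m := m) (k := k) (f := f) c
    rw [vtx_O] at h3
    rw [vtx_L hi him] at h4 ⊢
    rw [vtx_R]
    simp only at h3 h4 ⊢
    set x := (vtx m k f c).1
    set y := (vtx m k f c).2
    set e := eps m k
    set r : ℝ := (j : ℝ) + 1 with hr
    set l : ℝ := (f j : ℝ) + 1 / 2 with hl
    have h9 : (y - (i : ℝ) ^ 2) * (r + e - -(i : ℝ)) ≤ (x ^ 2 - (i : ℝ) ^ 2) * (r + e - -(i : ℝ)) := by
      apply mul_le_mul_of_nonneg_right
      · linarith
      · linarith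
    refine h9.trans ?_
    have h10 : (r ^ 2 + e * (r - l) - (i : ℝ) ^ 2) * (x - -(i : ℝ)) -
        (x ^ 2 - (i : ℝ) ^ 2) * (r + e - -(i : ℝ)) =
        (x + i) * ((r - x) * (r + e + i) + e * (i - l)) := by ring
    have h11 : 0 ≤ (x + i) * ((r - x) * (r + e + i) + e * (i - l)) := by
      apply mul_nonneg (by linarith)
      apply add_nonneg
      · exact mul_nonneg (by linarith) (by linarith)
      · exact mul_nonneg he.le (by linarith)
    linarith
  · refine iff_of_false ?_ (by omega)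
    intro hc
    have hfi : (i : ℝ) ≤ f j := by exact_mod_cast h
    have := hc (m + 2 * j) (by omega) (by omega)
    rw [vtx_O, vtx_R, vtx_L hi him] at this
    simp only at this
    set e := eps m k
    set r : ℝ := (j : ℝ) + 1 with hr
    set l : ℝ := (f j : ℝ) + 1 / 2 with hl
    have h10 : (r ^ 2 - (i : ℝ) ^ 2) * (r + e - -(i : ℝ)) -
      (r ^ 2 + e * (r - l) - (i : ℝ) ^ 2) * (r - -(i : ℝ)) = (r + i) * (e * (l - i)) := by ring
    have h11 : 0 < (r + i) * (e * (l - i)) := by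
      apply mul_pos (by linarith)
      apply mul_pos he
      linarith
    linarith

end Vis124
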