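import Pool.Agent.H124R2.Vis.Family

/-!
# The family is in general position
-/

namespace Vis124

open Set

/-- orientation determinant -/
def dt (A B C : ℝ × ℝ) : ℝ := (B.1 - A.1) * (C.2 - A.2) - (C.1 - A.1) * (B.2 - A.2)

theorem dt_eq_zero_of_collinear {A B C : ℝ × ℝ} (h : Collinear ℝ {A, B, C}) : dt A B C = 0 := by
  rw [collinear_iff_of_mem (p₀ := A) (by simp)] at h
  obtain ⟨v, hv⟩ := h
  obtain ⟨r, hr⟩ := hv B (by simp)
  obtain ⟨s, hs⟩ := hv C (by simp)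
  unfold dt
  rw [hr, hs]
  simp
  ring

theorem abs_mul_le' {u v U V : ℝ} (h1 : |u| ≤ U) (h2 : |v| ≤ V) : |u * v| ≤ U * V := by
  rw [abs_mul]
  exact mul_le_mul h1 h2 (abs_nonneg _) ((abs_nonneg _).trans h1)

/-- The determinant does not vanish. -/
theorem det_ne {B e : ℝ} (hB : 4 ≤ B) (he : 0 < e) (heB : e * B ^ 2 = 1 / 64)
    {Xa Xb Xc da db dc la lb lc : ℤ}
    (hXa : |(Xa : ℝ)| ≤ B) (hXb : |(Xb : ℝ)| ≤ B) (hXc : |(Xc : ℝ)| ≤ B)
    (hda : da = 0 ∨ (da = 1 ∧ 1 ≤ Xa)) (hdb : db = 0 ∨ (db = 1 ∧ 1 ≤ Xb))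
    (hdc : dc = 0 ∨ (dc = 1 ∧ 1 ≤ Xc))
    (hla : 0 ≤ la ∧ (la : ℝ) + 1 / 2 ≤ B) (hlb : 0 ≤ lb ∧ (lb : ℝ) + 1 / 2 ≤ B)
    (hlc : 0 ≤ lc ∧ (lc : ℝ) + 1 / 2 ≤ B)
    (hab : (Xa : ℝ) + e * da < Xb + e * db) (hbc : (Xb : ℝ) + e * db < Xc + e * dc) :
    dt ((Xa : ℝ) + e * da, (Xa : ℝ) ^ 2 + e * (da * (Xa - (la + 1 / 2))))
      ((Xb : ℝ) + e * db, (Xb : ℝ) ^ 2 + e * (db * (Xb - (lb + 1 / 2))))
      ((Xc : ℝ) + e * dc, (Xc : ℝ) ^ 2 + e * (dc * (Xc - (lc + 1 / 2)))) ≠ 0 := by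
  have heB1 : e * B ≤ 1 / 256 := by nlinarith
  have he1 : e ≤ 1 / 1024 := by nlinarith
  -- comparison of the integer parts
  have cmp : ∀ {X Y d d' : ℤ}, (d = 0 ∨ d = 1) → (d' = 0 ∨ d' = 1) →
      (X : ℝ) + e * d < Y + e * d' → X < Y ∨ (X = Y ∧ d = 0 ∧ d' = 1) := by
    intro X Y d d' hd hd' h
    rcases lt_trichotomy X Y with h1 | h1 | h1
    · left; exact h1
    · right
      subst h1
      rcases hd with rfl | rfl <;> rcases hd' with rfl | rfl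
      · simp at h
      · simp
      · simp at h; linarith
      · simp at h
    · exfalso
      have h2 : (Y : ℝ) + 1 ≤ X := by exact_mod_cast h1
      rcases hd with rfl | rfl <;> rcases hd' with rfl | rfl <;> push_cast at h <;> linarith
  have hda' : da = 0 ∨ da = 1 := hda.imp id (·.1)
  have hdb' : db = 0 ∨ db = 1 := hdb.imp id (·.1)
  have hdc' : dc = 0 ∨ dc = 1 := hdc.imp id (·.1)
  have c1 := cmp hda' hdb' hab
  have c2 := cmp hdb' hdc' hbc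
  -- bounds on the perturbations
  have bX : ∀ {d : ℤ}, (d = 0 ∨ d = 1) → 0 ≤ e * (d : ℝ) ∧ e * (d : ℝ) ≤ e := by
    rintro d (rfl | rfl) <;> simp [he.le]
  have bT : ∀ {X d l : ℤ}, (d = 0 ∨ d = 1) → |(X : ℝ)| ≤ B → (0 ≤ l ∧ (l : ℝ) + 1 / 2 ≤ B) →
      |e * ((d : ℝ) * (X - (l + 1 / 2)))| ≤ e * (2 * B) := by
    intro X d l hd hX hl
    have hl0 : (0:ℝ) ≤ l := by exact_mod_cast hl.1
    have h3 : |(X : ℝ) - (l + 1 / 2)| ≤ 2 * B := by
      rw [abs_le] at hX ⊢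
      constructor <;> linarith [hX.1, hX.2, hl.2]
    apply abs_mul_le' (by rw [abs_of_pos he])
    have h4 : |(d : ℝ)| ≤ 1 := by rcases hd with rfl | rfl <;> simp
    calc |(d : ℝ) * (X - (l + 1 / 2))| ≤ 1 * (2 * B) := abs_mul_le' h4 h3
      _ = 2 * B := by ring
  have ta := bT hda' hXa hla
  have tb := bT hdb' hXb hlb
  have tc := bT hdc' hXc hlc
  have xa := bX hda'
  have xb := bX hdb'
  have xc := bX hdc'
  rcases c1 with c1 | ⟨c1, c1a, c1b⟩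
  · rcases c2 with c2 | ⟨c2, c2a, c2b⟩
    · -- all different
      have hV : 1 ≤ (Xb - Xa) * (Xc - Xa) * (Xc - Xb) := by
        have h1 : 1 ≤ Xb - Xa := by omega
        have h2 : 1 ≤ Xc - Xa := by omega
        have h3 : 1 ≤ Xc - Xb := by omega
        have h4 : 1 ≤ (Xb - Xa) * (Xc - Xa) := by nlinarith
        nlinarith
      have hV' : (1 : ℝ) ≤ (Xb - Xa) * (Xc - Xa) * (Xc - Xb) := by exact_mod_cast hV
      generalize e * ((da : ℝ) * (Xa - (la + 1 / 2))) = Ta at *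
      generalize e * ((db : ℝ) * (Xb - (lb + 1 / 2))) = Tb at *
      generalize e * ((dc : ℝ) * (Xc - (lc + 1 / 2))) = Tc at *
      generalize e * (da : ℝ) = ka at *
      generalize e * (db : ℝ) = kb at *
      generalize e * (dc : ℝ) = kc at *
      have e1 : |kb - ka| ≤ e := by rw [abs_le]; constructor <;> linarith
      have e2 : |kc - ka| ≤ e := by rw [abs_le]; constructor <;> linarith
      rw [abs_le] at hXa hXb hXc ta tb tc
      have ga : (Xa : ℝ) ^ 2 ≤ B ^ 2 := sq_le_sq' hXa.1 hXa.2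
      have gb : (Xb : ℝ) ^ 2 ≤ B ^ 2 := sq_le_sq' hXb.1 hXb.2
      have gc : (Xc : ℝ) ^ 2 ≤ B ^ 2 := sq_le_sq' hXc.1 hXc.2
      have ga0 := sq_nonneg (Xa : ℝ)
      have gb0 := sq_nonneg (Xb : ℝ)
      have gc0 := sq_nonneg (Xc : ℝ)
      have s1 : |(Xc : ℝ) ^ 2 - (Xa : ℝ) ^ 2| ≤ B ^ 2 := by
        rw [abs_le]; constructor <;> linarith
      have s2 : |(Xb : ℝ) ^ 2 - (Xa : ℝ) ^ 2| ≤ B ^ 2 := by
        rw [abs_le]; constructor <;> linarith
      have t1 : |Tc - Ta| ≤ 4 * (e * B) := by rw [abs_le]; constructor <;> linarith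
      have t2 : |Tb - Ta| ≤ 4 * (e * B) := by rw [abs_le]; constructor <;> linarith
      have x1 : |(Xb : ℝ) - Xa| ≤ 2 * B := by rw [abs_le]; constructor <;> linarith
      have x2 : |(Xc : ℝ) - Xa| ≤ 2 * B := by rw [abs_le]; constructor <;> linarith
      have p1 := (abs_le.1 (abs_mul_le' e1 s1)).1
      have p2 := (abs_le.1 (abs_mul_le' x1 t1)).1
      have p3 := (abs_le.1 (abs_mul_le' e1 t1)).1
      have p4 := (abs_le.1 (abs_mul_le' e2 s2)).2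
      have p5 := (abs_le.1 (abs_mul_le' x2 t2)).2
      have p6 := (abs_le.1 (abs_mul_le' e2 t2)).2
      have q1 : 2 * B * (4 * (e * B)) = 8 * (e * B ^ 2) := by ring
      have q2 : e * (4 * (e * B)) ≤ 1 / 64 := by
        have h7 : 4 * (e * B) ≤ 1 := by linarith
        have h8 := mul_le_mul_of_nonneg_left h7 he.le
        linarith
      have key : dt ((Xa : ℝ) + ka, (Xa : ℝ) ^ 2 + Ta) ((Xb : ℝ) + kb, (Xb : ℝ) ^ 2 + Tb)
          ((Xc : ℝ) + kc, (Xc : ℝ) ^ 2 + Tc) =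
          (Xb - Xa) * (Xc - Xa) * (Xc - Xb) + (kb - ka) * ((Xc : ℝ) ^ 2 - (Xa : ℝ) ^ 2) +
            ((Xb : ℝ) - Xa) * (Tc - Ta) + (kb - ka) * (Tc - Ta) -
            (kc - ka) * ((Xb : ℝ) ^ 2 - (Xa : ℝ) ^ 2) - ((Xc : ℝ) - Xa) * (Tb - Ta) -
            (kc - ka) * (Tb - Ta) := by
        unfold dt; ring
      rw [key]
      apply ne_of_gt
      linarith
    · -- b and c share the integer part
      subst c2 c2a c2b
      have hX : 1 ≤ Xb := by
        rcases hdc with h | h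
        · omega
        · exact h.2
      have hX' : (Xa : ℝ) + 1 ≤ Xb := by exact_mod_cast c1
      have hhalf : (1 : ℝ) / 2 ≤ |(Xa : ℝ) + (lc + 1 / 2)| := by
        have h1 : (1 : ℤ) ≤ |2 * Xa + 2 * lc + 1| := by
          rcases abs_cases (2 * Xa + 2 * lc + 1) with h | h <;> omega
        have h2 : (1 : ℝ) ≤ |2 * (Xa : ℝ) + 2 * lc + 1| := by exact_mod_cast h1
        have h3 : 2 * (Xa : ℝ) + 2 * lc + 1 = 2 * ((Xa : ℝ) + (lc + 1 / 2)) := by ring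
        rw [h3, abs_mul, abs_of_pos (by norm_num : (0:ℝ) < 2)] at h2
        linarith
      have hlc0 : (0:ℝ) ≤ lc := by exact_mod_cast hlc.1
      have key : dt ((Xa : ℝ) + e * da, (Xa : ℝ) ^ 2 + e * (da * (Xa - (la + 1 / 2))))
          ((Xb : ℝ) + e * ((0 : ℤ) : ℝ), (Xb : ℝ) ^ 2 + e * (((0 : ℤ) : ℝ) * (Xb - (lb + 1 / 2))))
          ((Xb : ℝ) + e * ((1 : ℤ) : ℝ), (Xb : ℝ) ^ 2 + e * (((1 : ℤ) : ℝ) * (Xb - (lc + 1 / 2)))) =
          e * (-(((Xb : ℝ) - Xa) * (Xa + (lc + 1 / 2))) +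
            (e * (da * (Xa - (la + 1 / 2))) - (e * da) * (Xb - (lc + 1 / 2)))) := by
        unfold dt; push_cast; ring
      rw [key]
      apply mul_ne_zero he.ne'
      intro h0
      have h1 : |((Xb : ℝ) - Xa) * (Xa + (lc + 1 / 2))| ≤ e * (2 * B) + e * (2 * B) := by
        have h2 : ((Xb : ℝ) - Xa) * (Xa + (lc + 1 / 2)) =
            e * (da * (Xa - (la + 1 / 2))) - (e * da) * (Xb - (lc + 1 / 2)) := by linarith
        rw [h2]
        refine (abs_sub _ _).trans (add_le_add ta ?_)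
        apply abs_mul_le'
        · rw [abs_of_nonneg xa.1]; exact xa.2
        · rw [abs_le] at hXb ⊢
          constructor <;> linarith [hXb.1, hXb.2, hlc.2]
      rw [abs_mul] at h1
      have h3 : (1 : ℝ) ≤ |(Xb : ℝ) - Xa| := by
        rw [abs_of_nonneg (by linarith)]; linarith
      have h4 : (1 : ℝ) * (1 / 2) ≤ |(Xb : ℝ) - Xa| * |(Xa : ℝ) + (lc + 1 / 2)| :=
        mul_le_mul h3 hhalf (by norm_num) (abs_nonneg _)
      linarith
  · -- a and b share the integer part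
    subst c1 c1a c1b
    have hX : 1 ≤ Xa := by
      rcases hdb with h | h
      · omega
      · exact h.2
    have hac : Xa < Xc := by
      rcases c2 with c2 | ⟨c2, c2a, c2b⟩
      · exact c2
      · omega
    have hX' : (Xa : ℝ) + 1 ≤ Xc := by exact_mod_cast hac
    have hX1 : (1 : ℝ) ≤ Xa := by exact_mod_cast hX
    have hlb0 : (0:ℝ) ≤ lb := by exact_mod_cast hlb.1
    have key : dt ((Xa : ℝ) + e * ((0 : ℤ) : ℝ),
          (Xa : ℝ) ^ 2 + e * (((0 : ℤ) : ℝ) * (Xa - (la + 1 / 2))))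
        ((Xa : ℝ) + e * ((1 : ℤ) : ℝ), (Xa : ℝ) ^ 2 + e * (((1 : ℤ) : ℝ) * (Xa - (lb + 1 / 2))))
        ((Xc : ℝ) + e * dc, (Xc : ℝ) ^ 2 + e * (dc * (Xc - (lc + 1 / 2)))) =
        e * (((Xc : ℝ) - Xa) * (Xc + (lb + 1 / 2)) +
          (e * (dc * (Xc - (lc + 1 / 2))) - (e * dc) * (Xa - (lb + 1 / 2)))) := by
      unfold dt; push_cast; ring
    rw [key]
    apply mul_ne_zero he.ne'
    have h1 := (abs_le.1 tc).1
    have h2 : |(e * dc) * ((Xa : ℝ) - (lb + 1 / 2))| ≤ e * (2 * B) := by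
      apply abs_mul_le'
      · rw [abs_of_nonneg xc.1]; exact xc.2
      · rw [abs_le] at hXa ⊢
        constructor <;> linarith [hXa.1, hXa.2, hlb.2]
    have h3 := (abs_le.1 h2).2
    have h4 : (1 : ℝ) * 1 ≤ ((Xc : ℝ) - Xa) * (Xc + (lb + 1 / 2)) :=
      mul_le_mul (by linarith) (by linarith) (by norm_num) (by linarith)
    apply ne_of_gt
    linarith

variable {m k : ℕ} {f : ℕ → ℕ}

/-- uniform description of the vertices -/
theorem vtx_repr (hf : ∀ j, j < k → f j ≤ m) {c : ℕ} (hc : c ≤ m + 2 * k) :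
    ∃ X d l : ℤ, |(X : ℝ)| ≤ (m : ℝ) + k + 4 ∧ (d = 0 ∨ (d = 1 ∧ 1 ≤ X)) ∧
      (0 ≤ l ∧ (l : ℝ) + 1 / 2 ≤ (m : ℝ) + k + 4) ∧
      vtx m k f c = ((X : ℝ) + eps m k * d,
        (X : ℝ) ^ 2 + eps m k * (d * (X - (l + 1 / 2)))) := by
  have hm0 : (0:ℝ) ≤ m := Nat.cast_nonneg m
  have hk0 : (0:ℝ) ≤ k := Nat.cast_nonneg k
  rcases vtx_cases (m := m) c with ⟨i, h1, h2, rfl⟩ | ⟨j, rfl⟩ | ⟨j, rfl⟩
  · refine ⟨-(i : ℤ), 0, 0, ?_, Or.inl rfl, ⟨le_rfl, by push_cast; linarith⟩, ?_⟩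
    · have h3 : (i : ℝ) ≤ m := by exact_mod_cast h2
      have h4 : (0:ℝ) ≤ i := Nat.cast_nonneg i
      push_cast
      rw [abs_neg, abs_of_nonneg h4]; linarith
    · rw [vtx_L h1 h2]; push_cast; simp
  · have h2 : j ≤ k := by omega
    have h3 : (j : ℝ) ≤ k := by exact_mod_cast h2
    have h4 : (0:ℝ) ≤ j := Nat.cast_nonneg j
    refine ⟨(j : ℤ) + 1, 0, 0, ?_, Or.inl rfl, ⟨le_rfl, by push_cast; linarith⟩, ?_⟩
    · push_cast
      rw [abs_of_nonneg (by linarith)]; linarith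
    · rw [vtx_O]; push_cast; simp
  · have h2 : j < k := by omega
    have h3 : (j : ℝ) + 1 ≤ k := by exact_mod_cast h2
    have h4 : (0:ℝ) ≤ j := Nat.cast_nonneg j
    have h5 : (f j : ℝ) ≤ m := by exact_mod_cast hf j h2
    refine ⟨(j : ℤ) + 1, 1, (f j : ℤ), ?_, Or.inr ⟨rfl, by omega⟩,
      ⟨Int.natCast_nonneg _, by push_cast; linarith⟩, ?_⟩
    · push_cast
      rw [abs_of_nonneg (by linarith)]; linarith
    · rw [vtx_R]; push_cast; simp

theorem dt_sorted_ne (hf : ∀ j, j < k → f j ≤ m) {a b c : ℕ} (hab : a < b) (hbc : b < c)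
    (hc : c ≤ m + 2 * k) : dt (vtx m k f a) (vtx m k f b) (vtx m k f c) ≠ 0 := by
  obtain ⟨Xa, da, la, h1a, h2a, h3a, h4a⟩ := vtx_repr hf (show a ≤ m + 2 * k by omega)
  obtain ⟨Xb, db, lb, h1b, h2b, h3b, h4b⟩ := vtx_repr hf (show b ≤ m + 2 * k by omega)
  obtain ⟨Xc, dc, lc, h1c, h2c, h3c, h4c⟩ := vtx_repr hf (show c ≤ m + 2 * k by omega)
  have s1 := vtx_smono (m := m) (k := k) (f := f) hab
  have s2 := vtx_smono (m := m) (k := k) (f := f) hbc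
  rw [h4a, h4b] at s1
  rw [h4b, h4c] at s2
  rw [h4a, h4b, h4c]
  have hm0 : (0:ℝ) ≤ m := Nat.cast_nonneg m
  have hk0 : (0:ℝ) ≤ k := Nat.cast_nonneg k
  exact det_ne (by linarith) (eps_pos m k) (eps_mul_sq m k) h1a h1b h1c h2a h2b h2c h3a h3b h3c
    s1 s2

theorem family_generalPosition (hf : ∀ j, j < k → f j ≤ m) :
    GeneralPosition (fun i : Fin (m + 2 * k + 1) => vtx m k f i) := by
  intro i j l hij hjl hil hcol
  have h0 := dt_eq_zero_of_collinear hcol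
  simp only at h0
  have hi := i.2
  have hj := j.2
  have hl := l.2
  have nij : (i : ℕ) ≠ j := fun h => hij (Fin.ext h)
  have njl : (j : ℕ) ≠ l := fun h => hjl (Fin.ext h)
  have nil : (i : ℕ) ≠ l := fun h => hil (Fin.ext h)
  rcases lt_or_gt_of_ne nij with h1 | h1 <;> rcases lt_or_gt_of_ne njl with h2 | h2 <;>
    rcases lt_or_gt_of_ne nil with h3 | h3
  · exact dt_sorted_ne hf h1 h2 (by omega) h0
  · omega
  · exact dt_sorted_ne hf h3 h2 (by omega) (by unfold dt at h0 ⊢; linarith)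
  · exact dt_sorted_ne hf h3 h1 (by omega) (by unfold dt at h0 ⊢; linarith)
  · exact dt_sorted_ne hf h1 h3 (by omega) (by unfold dt at h0 ⊢; linarith)
  · exact dt_sorted_ne hf h2 h3 (by omega) (by unfold dt at h0 ⊢; linarith)
  · omega
  · exact dt_sorted_ne hf h2 h1 (by omega) (by unfold dt at h0 ⊢; linarith)

end Vis124
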