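import Mathlib

/-!
# Sectors at a vertex of a polygon
-/

namespace Vis124

open Set

/-- cross product -/
def cr (a b : ℝ × ℝ) : ℝ := a.1 * b.2 - a.2 * b.1

/-- rotation by a right angle -/
def rot (a : ℝ × ℝ) : ℝ × ℝ := (-a.2, a.1)

/-- the sector at a vertex with outgoing direction `w` and backward direction `u`, on the left for
`σ = 1` and on the right for `σ = -1` -/
def Sec (σ : ℝ) (w u : ℝ × ℝ) : Set (ℝ × ℝ) :=
  {z | (0 < σ * cr w u ∧ 0 < σ * cr w z ∧ 0 < σ * cr z u) ∨
       (σ * cr w u ≤ 0 ∧ (0 < σ * cr w z ∨ 0 < σ * cr z u))}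

theorem cr_smul_left (c : ℝ) (a b : ℝ × ℝ) : cr (c • a) b = c * cr a b := by
  simp [cr]; ring

theorem cr_smul_right (c : ℝ) (a b : ℝ × ℝ) : cr a (c • b) = c * cr a b := by
  simp [cr]; ring

theorem cr_self (a : ℝ × ℝ) : cr a a = 0 := by simp [cr]; ring

theorem norm2_pos {w : ℝ × ℝ} (hw : w ≠ 0) : 0 < w.1 ^ 2 + w.2 ^ 2 := by
  by_contra hc
  apply hw
  have h1 : w.1 ^ 2 = 0 := by nlinarith [sq_nonneg w.1, sq_nonneg w.2]
  have h2 : w.2 ^ 2 = 0 := by nlinarith [sq_nonneg w.1, sq_nonneg w.2]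
  ext
  · simpa using h1
  · simpa using h2

theorem parallel {w u : ℝ × ℝ} (hw : w ≠ 0) (h : cr w u = 0) : ∃ c : ℝ, u = c • w := by
  have h2 := norm2_pos hw
  refine ⟨(w.1 * u.1 + w.2 * u.2) / (w.1 ^ 2 + w.2 ^ 2), ?_⟩
  unfold cr at h
  ext
  · simp only [Prod.smul_fst, smul_eq_mul]
    field_simp
    linear_combination (-w.2) * h
  · simp only [Prod.smul_snd, smul_eq_mul]
    field_simp
    linear_combination w.1 * h

theorem cramer {w u : ℝ × ℝ} (h : cr w u ≠ 0) (z : ℝ × ℝ) :
    z = (cr z u / cr w u) • w + (cr w z / cr w u) • u := by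
  ext
  · simp only [Prod.fst_add, Prod.smul_fst, smul_eq_mul]
    field_simp
    unfold cr; ring
  · simp only [Prod.snd_add, Prod.smul_snd, smul_eq_mul]
    field_simp
    unfold cr; ring

/-- every direction is in one of the sectors or on one of the two rays -/
theorem sec_trichotomy {w u : ℝ × ℝ} (hw : w ≠ 0) (hu : u ≠ 0)
    (hns : ∀ c : ℝ, 0 < c → u ≠ c • w) (z : ℝ × ℝ) :
    z ∈ Sec 1 w u ∨ z ∈ Sec (-1) w u ∨ (∃ a : ℝ, 0 ≤ a ∧ z = a • w) ∨
      (∃ a : ℝ, 0 ≤ a ∧ z = a • u) := by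
  simp only [Sec, mem_setOf_eq, one_mul, neg_mul]
  rcases lt_trichotomy (cr w u) 0 with hA | hA | hA
  · have hcr := cramer hA.ne z
    rcases lt_trichotomy (cr w z) 0 with hB | hB | hB
    · rcases lt_trichotomy (cr z u) 0 with hD | hD | hD
      · right; left; left; exact ⟨by linarith, by linarith, by linarith⟩
      · right; right; right
        refine ⟨cr w z / cr w u, div_nonneg_of_nonpos hB.le hA.le, ?_⟩
        rw [hD] at hcr; simpa using hcr
      · left; right; exact ⟨hA.le, Or.inr hD⟩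
    · rcases lt_or_ge 0 (cr z u) with hD | hD
      · left; right; exact ⟨hA.le, Or.inr hD⟩
      · right; right; left
        refine ⟨cr z u / cr w u, div_nonneg_of_nonpos hD hA.le, ?_⟩
        rw [hB] at hcr; simpa using hcr
    · left; right; exact ⟨hA.le, Or.inl hB⟩
  · obtain ⟨c, hc⟩ := parallel hw hA
    rcases lt_trichotomy (cr w z) 0 with hB | hB | hB
    · right; left; right; exact ⟨by linarith, Or.inl (by linarith)⟩
    · obtain ⟨a, ha⟩ := parallel hw hB
      rcases le_or_gt 0 a with h0 | h0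
      · right; right; left; exact ⟨a, h0, ha⟩
      · right; right; right
        have hc0 : c < 0 := by
          by_contra hcc
          rcases lt_or_eq_of_le (not_lt.1 hcc) with h1 | h1
          · exact hns c h1 hc
          · apply hu; rw [hc, ← h1, zero_smul]
        refine ⟨a / c, div_nonneg_of_nonpos h0.le hc0.le, ?_⟩
        rw [hc, smul_smul, div_mul_cancel₀ _ hc0.ne, ha]
    · left; right; exact ⟨by linarith, Or.inl hB⟩
  · have hcr := cramer hA.ne' z
    rcases lt_trichotomy (cr w z) 0 with hB | hB | hB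
    · right; left; right; exact ⟨by linarith, Or.inl (by linarith)⟩
    · rcases lt_or_ge (cr z u) 0 with hD | hD
      · right; left; right; exact ⟨by linarith, Or.inr (by linarith)⟩
      · right; right; left
        refine ⟨cr z u / cr w u, div_nonneg hD hA.le, ?_⟩
        rw [hB] at hcr; simpa using hcr
    · rcases lt_trichotomy (cr z u) 0 with hD | hD | hD
      · right; left; right; exact ⟨by linarith, Or.inr (by linarith)⟩
      · right; right; right
        refine ⟨cr w z / cr w u, div_nonneg hB.le hA.le, ?_⟩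
        rw [hD] at hcr; simpa using hcr
      · left; left; exact ⟨hA, hB, hD⟩

theorem ray_w_not_mem {σ a : ℝ} {w u : ℝ × ℝ} (ha : 0 ≤ a) : a • w ∉ Sec σ w u := by
  simp only [Sec, mem_setOf_eq, cr_smul_right, cr_smul_left, cr_self, mul_zero, lt_irrefl,
    false_and, and_false, false_or, not_and, not_lt]
  intro h
  have := mul_nonneg ha (neg_nonneg.2 h)
  nlinarith

theorem ray_u_not_mem {σ a : ℝ} {w u : ℝ × ℝ} (ha : 0 ≤ a) : a • u ∉ Sec σ w u := by
  simp only [Sec, mem_setOf_eq, cr_smul_right, cr_smul_left, cr_self, mul_zero, lt_irrefl,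
    and_false, false_or, or_false, not_and, not_lt]
  intro h
  have := mul_nonneg ha (neg_nonneg.2 h)
  nlinarith

theorem smul_mem_sec {σ t : ℝ} {w u z : ℝ × ℝ} (ht : 0 < t) (hz : z ∈ Sec σ w u) :
    t • z ∈ Sec σ w u := by
  have e : ∀ x : ℝ, σ * (t * x) = t * (σ * x) := fun x => by ring
  rcases hz with ⟨h1, h2, h3⟩ | ⟨h1, h2 | h2⟩
  · left
    refine ⟨h1, ?_, ?_⟩
    · rw [cr_smul_right, e]; exact mul_pos ht h2
    · rw [cr_smul_left, e]; exact mul_pos ht h3
  · right
    refine ⟨h1, Or.inl ?_⟩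
    rw [cr_smul_right, e]; exact mul_pos ht h2
  · right
    refine ⟨h1, Or.inr ?_⟩
    rw [cr_smul_left, e]; exact mul_pos ht h2

theorem convex_cr_left (σ : ℝ) (w : ℝ × ℝ) : Convex ℝ {z : ℝ × ℝ | 0 < σ * cr w z} := by
  intro x hx y hy a b ha hb hab
  simp only [mem_setOf_eq] at hx hy ⊢
  have h1 : σ * cr w (a • x + b • y) = a * (σ * cr w x) + b * (σ * cr w y) := by
    simp [cr]; ring
  rw [h1]
  rcases eq_or_lt_of_le ha with h | h
  · have hb1 : b = 1 := by linarith
    rw [← h, hb1]; linarith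
  · have := mul_pos h hx
    have := mul_nonneg hb hy.le
    linarith

theorem convex_cr_right (σ : ℝ) (u : ℝ × ℝ) : Convex ℝ {z : ℝ × ℝ | 0 < σ * cr z u} := by
  have : {z : ℝ × ℝ | 0 < σ * cr z u} = {z : ℝ × ℝ | 0 < (-σ) * cr u z} := by
    ext z
    simp only [mem_setOf_eq]
    have : σ * cr z u = -σ * cr u z := by simp [cr]; ring
    rw [this]
  rw [this]
  exact convex_cr_left _ _

/-- the sectors are locally connected at the vertex -/
theorem sec_ball_preconnected {σ : ℝ} {w u : ℝ × ℝ} (hw : w ≠ 0) (hu : u ≠ 0)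
    (hns : ∀ c : ℝ, 0 < c → u ≠ c • w) {δ : ℝ} (hδ : 0 < δ) :
    IsPreconnected (Sec σ w u ∩ Metric.ball 0 δ) := by
  rcases lt_trichotomy (σ * cr w u) 0 with hA | hA | hA
  · have hS : Sec σ w u ∩ Metric.ball 0 δ =
        ({z | 0 < σ * cr w z} ∩ Metric.ball 0 δ) ∪ ({z | 0 < σ * cr z u} ∩ Metric.ball 0 δ) := by
      ext z
      simp only [Sec, mem_inter_iff, mem_setOf_eq, mem_union]
      constructor
      · rintro ⟨⟨h1, -⟩ | ⟨-, h2 | h2⟩, h3⟩
        · linarith
        · exact Or.inl ⟨h2, h3⟩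
        · exact Or.inr ⟨h2, h3⟩
      · rintro (⟨h1, h2⟩ | ⟨h1, h2⟩)
        · exact ⟨Or.inr ⟨hA.le, Or.inl h1⟩, h2⟩
        · exact ⟨Or.inr ⟨hA.le, Or.inr h1⟩, h2⟩
    rw [hS]
    -- common point
    set q : ℝ × ℝ := -(u + w) with hq
    set t : ℝ := δ / (2 * (‖q‖ + 1)) with ht
    have hq1 : 0 < ‖q‖ + 1 := by positivity
    have ht0 : 0 < t := by rw [ht]; positivity
    have hball : t • q ∈ Metric.ball (0 : ℝ × ℝ) δ := by
      rw [mem_ball_zero_iff, norm_smul, Real.norm_of_nonneg ht0.le]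
      have h1 : t * ‖q‖ < t * (2 * (‖q‖ + 1)) := by
        apply mul_lt_mul_of_pos_left _ ht0
        linarith [norm_nonneg q]
      have h2 : t * (2 * (‖q‖ + 1)) = δ := by
        rw [ht]; field_simp
      linarith
    have hc1 : σ * cr w (t • q) = t * -(σ * cr w u) := by
      rw [cr_smul_right, hq]; simp [cr]; ring
    have hc2 : σ * cr (t • q) u = t * -(σ * cr w u) := by
      rw [cr_smul_left, hq]; simp [cr]; ring
    have hpos : 0 < t * -(σ * cr w u) := mul_pos ht0 (by linarith)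
    apply IsPreconnected.union (t • q)
    · exact ⟨by simp only [mem_setOf_eq]; rw [hc1]; exact hpos, hball⟩
    · exact ⟨by simp only [mem_setOf_eq]; rw [hc2]; exact hpos, hball⟩
    · exact ((convex_cr_left σ w).inter (convex_ball _ _)).isPreconnected
    · exact ((convex_cr_right σ u).inter (convex_ball _ _)).isPreconnected
  · by_cases hσ : σ = 0
    · have : Sec σ w u = ∅ := by
        ext z; simp [Sec, hσ]
      rw [this, empty_inter]; exact isPreconnected_empty
    have hcr : cr w u = 0 := by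
      rcases mul_eq_zero.1 hA with h | h
      · exact absurd h hσ
      · exact h
    obtain ⟨c, hc⟩ := parallel hw hcr
    have hc0 : c < 0 := by
      by_contra hcc
      rcases lt_or_eq_of_le (not_lt.1 hcc) with h1 | h1
      · exact hns c h1 hc
      · apply hu; rw [hc, ← h1, zero_smul]
    have hS : Sec σ w u ∩ Metric.ball 0 δ = {z | 0 < σ * cr w z} ∩ Metric.ball 0 δ := by
      ext z
      simp only [Sec, mem_inter_iff, mem_setOf_eq]
      have h5 : σ * cr z u = (-c) * (σ * cr w z) := by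
        rw [hc, cr_smul_right]; simp [cr]; ring
      constructor
      · rintro ⟨⟨h1, -⟩ | ⟨-, h2 | h2⟩, h3⟩
        · linarith
        · exact ⟨h2, h3⟩
        · rw [h5] at h2
          exact ⟨(pos_iff_pos_of_mul_pos h2).1 (by linarith), h3⟩
      · rintro ⟨h1, h2⟩
        exact ⟨Or.inr ⟨hA.le, Or.inl h1⟩, h2⟩
    rw [hS]
    exact ((convex_cr_left σ w).inter (convex_ball _ _)).isPreconnected
  · have hS : Sec σ w u ∩ Metric.ball 0 δ =
        ({z | 0 < σ * cr w z} ∩ {z | 0 < σ * cr z u}) ∩ Metric.ball 0 δ := by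
      ext z
      simp only [Sec, mem_inter_iff, mem_setOf_eq]
      constructor
      · rintro ⟨⟨h1, h2, h4⟩ | ⟨h1, -⟩, h3⟩
        · exact ⟨⟨h2, h4⟩, h3⟩
        · linarith
      · rintro ⟨⟨h1, h2⟩, h3⟩
        exact ⟨Or.inl ⟨hA, h1, h2⟩, h3⟩
    rw [hS]
    exact (((convex_cr_left σ w).inter (convex_cr_right σ u)).inter
      (convex_ball _ _)).isPreconnected

end Vis124
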