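import Pool.Agent.H124R2.Vis.Defs
import Pool.Agent.H124R2.Vis.Sector

/-!
# Local structure of a simple polygon; orientation
-/

namespace Vis124

open Set

variable {n : ℕ} {v : Fin n → ℝ × ℝ} {P : Set (ℝ × ℝ)}

/-- successor -/
abbrev sc (k : Fin n) : Fin n := finRotate n k

/-- predecessor -/
abbrev pd (k : Fin n) : Fin n := (finRotate n).symm k

theorem sc_pd (k : Fin n) : sc (pd k) = k := (finRotate n).apply_symm_apply k
theorem pd_sc (k : Fin n) : pd (sc k) = k := (finRotate n).symm_apply_apply k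

theorem sc_val {k : Fin n} : ((sc k : Fin n) : ℕ) = if (k : ℕ) + 1 < n then (k : ℕ) + 1 else 0 := by
  obtain ⟨m, rfl⟩ : ∃ m, n = m + 1 := ⟨n - 1, by have := k.2; omega⟩
  by_cases h : (k : ℕ) < m
  · have := finRotate_of_lt (n := m) (k := k) h
    have h2 : sc k = ⟨k + 1, by omega⟩ := by simpa using this
    rw [h2, if_pos (by omega)]
  · have h3 : k = Fin.last m := by
      apply Fin.ext; simp only [Fin.val_last]; have := k.2; omega
    rw [h3, sc, finRotate_last]; simp

theorem sc_ne (hn : 3 ≤ n) (k : Fin n) : sc k ≠ k := by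
  intro h
  have h1 := congrArg Fin.val h
  rw [sc_val] at h1
  split_ifs at h1 <;> omega

theorem pd_ne (hn : 3 ≤ n) (k : Fin n) : pd k ≠ k := by
  intro h
  apply sc_ne hn (pd k)
  rw [sc_pd]; exact h.symm

theorem sc_ne_pd (hn : 3 ≤ n) (k : Fin n) : sc k ≠ pd k := by
  intro h
  have h1 : sc (sc k) = k := by rw [h, sc_pd]
  have h2 := congrArg Fin.val h1
  rw [sc_val, sc_val] at h2
  split_ifs at h2 <;> omega

/-- cyclic induction -/
theorem cyc_induction {p : Fin n → Prop} {k0 : Fin n} (h0 : p k0) (hs : ∀ k, p k → p (sc k)) :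
    ∀ k, p k := by
  have hn : 0 < n := lt_of_le_of_lt (Nat.zero_le _) k0.2
  -- from k0 to the last one
  have h1 : ∀ j (hj : j < n), (k0 : ℕ) ≤ j → p ⟨j, hj⟩ := by
    intro j hj hk
    induction j, hk using Nat.le_induction with
    | base => exact h0
    | succ j hk ih =>
      have h2 := hs _ (ih (by omega))
      have h3 : sc (⟨j, by omega⟩ : Fin n) = ⟨j + 1, hj⟩ := by
        apply Fin.ext; rw [sc_val]; simp [hj]
      rwa [h3] at h2
  have h2 : p ⟨0, hn⟩ := by
    have h3 := hs _ (h1 (n - 1) (by omega) (by omega))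
    have h4 : sc (⟨n - 1, by omega⟩ : Fin n) = ⟨0, hn⟩ := by
      apply Fin.ext; rw [sc_val]; simp; omega
    rwa [h4] at h3
  intro k
  obtain ⟨j, hj⟩ := k
  induction j with
  | zero => exact h2
  | succ j ih =>
    have h3 := hs _ (ih (by omega))
    have h4 : sc (⟨j, by omega⟩ : Fin n) = ⟨j + 1, hj⟩ := by
      apply Fin.ext; rw [sc_val]; simp [hj]
    rwa [h4] at h3

/-- outgoing direction -/
def wd (v : Fin n → ℝ × ℝ) (k : Fin n) : ℝ × ℝ := v (sc k) - v k

/-- backward direction -/
def ud (v : Fin n → ℝ × ℝ) (k : Fin n) : ℝ × ℝ := v (pd k) - v k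

theorem edge_eq (k : Fin n) : edge v k = {q | ∃ a : ℝ, 0 ≤ a ∧ a ≤ 1 ∧ q = v k + a • wd v k} := by
  rw [edge, segment_eq_image']
  ext q
  simp only [mem_image, mem_Icc, mem_setOf_eq]
  constructor
  · rintro ⟨a, ⟨h1, h2⟩, h3⟩; exact ⟨a, h1, h2, h3.symm⟩
  · rintro ⟨a, h1, h2, h3⟩; exact ⟨a, ⟨h1, h2⟩, h3.symm⟩

theorem edge_eq' (k : Fin n) :
    edge v (pd k) = {q | ∃ a : ℝ, 0 ≤ a ∧ a ≤ 1 ∧ q = v k + a • ud v k} := by
  have h1 : finRotate n (pd k) = k := sc_pd k
  rw [edge, h1, segment_symm, segment_eq_image']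
  ext q
  simp only [mem_image, mem_Icc, mem_setOf_eq]
  constructor
  · rintro ⟨a, ⟨h1, h2⟩, h3⟩; exact ⟨a, h1, h2, h3.symm⟩
  · rintro ⟨a, h1, h2, h3⟩; exact ⟨a, ⟨h1, h2⟩, h3.symm⟩

theorem isCompact_edge (k : Fin n) : IsCompact (edge v k) := by
  rw [edge, segment_eq_image']
  exact isCompact_Icc.image (by fun_prop)

theorem vertex_mem_edge (k : Fin n) : v k ∈ edge v k := left_mem_segment _ _ _

theorem vertex_mem_edge' (k : Fin n) : v (sc k) ∈ edge v k := right_mem_segment _ _ _

section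
variable (h : IsSimplePolygon v P)
include h

theorem wd_ne (k : Fin n) : wd v k ≠ 0 := by
  intro h0
  exact sc_ne h.three_le k (h.injective (sub_eq_zero.1 h0))

theorem ud_ne (k : Fin n) : ud v k ≠ 0 := by
  intro h0
  exact pd_ne h.three_le k (h.injective (sub_eq_zero.1 h0))

/-- a vertex lies only on its two edges -/
theorem vertex_edge {k l : Fin n} (hv : v k ∈ edge v l) : l = k ∨ l = pd k := by
  by_cases hkl : k = l
  · exact Or.inl hkl.symm
  · have h1 := h.simple k l hkl ⟨vertex_mem_edge k, hv⟩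
    rcases h1.2 with h2 | h2
    · exact absurd (h.injective h2) hkl
    · right
      have h3 : k = sc l := h.injective h2
      rw [h3, pd_sc]

/-- two consecutive edges do not overlap -/
theorem not_same_dir (k : Fin n) (c : ℝ) (hc : 0 < c) : ud v k ≠ c • wd v k := by
  intro h0
  -- the point v k + t • wd with t small lies on both edges
  set t : ℝ := min 1 c with ht
  have ht0 : 0 < t := lt_min one_pos hc
  have ht1 : t ≤ 1 := min_le_left _ _
  have htc : t ≤ c := min_le_right _ _
  have m1 : v k + t • wd v k ∈ edge v k := by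
    rw [edge_eq]; exact ⟨t, ht0.le, ht1, rfl⟩
  have m2 : v k + t • wd v k ∈ edge v (pd k) := by
    rw [edge_eq']
    refine ⟨t / c, by positivity, by rw [div_le_one hc]; exact htc, ?_⟩
    rw [h0, smul_smul, div_mul_cancel₀ _ hc.ne']
  have hne : k ≠ pd k := (pd_ne h.three_le k).symm
  have h1 := h.simple k (pd k) hne ⟨m1, m2⟩
  have h2 : finRotate n (pd k) = k := sc_pd k
  rw [h2] at h1
  rcases h1.2 with h3 | h3
  · -- equals v (pd k)
    rcases h1.1 with h4 | h4
    · exact pd_ne h.three_le k (h.injective (h3.symm.trans h4))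
    · exact sc_ne_pd h.three_le k (h.injective (h4.symm.trans h3))
  · -- equals v k
    have h4 : t • wd v k = 0 := by simpa using h3
    rcases smul_eq_zero.1 h4 with h5 | h5
    · exact ht0.ne' h5
    · exact wd_ne h k h5

/-- near a vertex, the curve consists of two rays -/
theorem local_vertex (k : Fin n) : ∃ δ > 0, ∀ z : ℝ × ℝ, ‖z‖ < δ → v k + z ∈ curve v →
    (∃ a : ℝ, 0 ≤ a ∧ z = a • wd v k) ∨ (∃ a : ℝ, 0 ≤ a ∧ z = a • ud v k) := by
  set F : Set (ℝ × ℝ) := ⋃ l : Fin n, ⋃ _ : l ≠ k ∧ l ≠ pd k, edge v l with hF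
  have hFc : IsClosed F := by
    apply isClosed_iUnion_of_finite
    intro l
    apply isClosed_iUnion_of_finite
    intro _
    exact (isCompact_edge l).isClosed
  have hvF : v k ∉ F := by
    simp only [hF, mem_iUnion, not_exists]
    intro l hl hv
    rcases vertex_edge h hv with h1 | h1
    · exact hl.1 h1
    · exact hl.2 h1
  have h1 : Fᶜ ∈ nhds (v k) := hFc.isOpen_compl.mem_nhds hvF
  obtain ⟨δ, hδ, hb⟩ := Metric.mem_nhds_iff.1 h1
  refine ⟨δ, hδ, ?_⟩
  intro z hz hc
  have h2 : v k + z ∉ F := hb (by simpa [Metric.mem_ball, dist_eq_norm] using hz)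
  simp only [curve, mem_iUnion] at hc
  obtain ⟨l, hl⟩ := hc
  by_cases hlk : l = k
  · subst hlk
    rw [edge_eq] at hl
    obtain ⟨a, ha, -, h3⟩ := hl
    exact Or.inl ⟨a, ha, add_left_cancel h3⟩
  · by_cases hlp : l = pd k
    · subst hlp
      rw [edge_eq'] at hl
      obtain ⟨a, ha, -, h3⟩ := hl
      exact Or.inr ⟨a, ha, add_left_cancel h3⟩
    · exfalso
      apply h2
      simp only [hF, mem_iUnion]
      exact ⟨l, ⟨hlk, hlp⟩, hl⟩

/-- near a compact part of the relative interior of an edge there is nothing else of the curve -/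
theorem local_edge (l : Fin n) {a1 a2 : ℝ} (h1 : 0 < a1) (h2 : a2 < 1) :
    ∃ δ > 0, ∀ a t : ℝ, a1 ≤ a → a ≤ a2 → t ≠ 0 → |t| < δ →
      v l + a • wd v l + t • rot (wd v l) ∉ curve v := by
  set K : Set (ℝ × ℝ) := (fun a : ℝ => v l + a • wd v l) '' Icc a1 a2 with hK
  have hKc : IsCompact K := isCompact_Icc.image (by fun_prop)
  set F : Set (ℝ × ℝ) := ⋃ j : Fin n, ⋃ _ : j ≠ l, edge v j with hF
  have hFc : IsClosed F := by
    apply isClosed_iUnion_of_finite
    intro l
    apply isClosed_iUnion_of_finite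
    intro _
    exact (isCompact_edge l).isClosed
  have hw := wd_ne h l
  have hdis : Disjoint K F := by
    rw [Set.disjoint_left]
    rintro _ ⟨a, ha, rfl⟩ hq
    simp only [hF, mem_iUnion] at hq
    obtain ⟨j, hj, hq⟩ := hq
    have h3 := h.simple l j (Ne.symm hj) ⟨by
      rw [edge_eq]; exact ⟨a, by linarith [ha.1], by linarith [ha.2], rfl⟩, hq⟩
    rcases h3.1 with h4 | h4
    · have h5 : a • wd v l = 0 := by simpa using h4
      rcases smul_eq_zero.1 h5 with h6 | h6
      · linarith [ha.1]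
      · exact hw h6
    · have h5 : (a - 1) • wd v l = 0 := by
        have h6 : v l + a • wd v l = v l + wd v l := by
          rw [mem_singleton_iff] at h4
          rw [h4]; simp [wd]
        have h7 : a • wd v l = wd v l := add_left_cancel h6
        rw [sub_smul, one_smul, h7, sub_self]
      rcases smul_eq_zero.1 h5 with h6 | h6
      · linarith [ha.2]
      · exact hw h6
  obtain ⟨δ, hδ, hd⟩ := hdis.exists_thickenings hKc hFc
  have hr : 0 < ‖rot (wd v l)‖ + 1 := by positivity
  refine ⟨δ / (‖rot (wd v l)‖ + 1), by positivity, ?_⟩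
  intro a t ha1 ha2 ht htd hc
  simp only [curve, mem_iUnion] at hc
  obtain ⟨j, hj⟩ := hc
  by_cases hjl : j = l
  · subst hjl
    rw [edge_eq] at hj
    obtain ⟨b, -, -, hb⟩ := hj
    have h3 : cr (wd v j) (a • wd v j + t • rot (wd v j)) = cr (wd v j) (b • wd v j) := by
      have : a • wd v j + t • rot (wd v j) = b • wd v j := by
        rw [add_assoc] at hb; exact add_left_cancel hb
      rw [this]
    rw [cr_smul_right, cr_self, mul_zero] at h3
    have h4 : cr (wd v j) (a • wd v j + t • rot (wd v j)) =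
        t * ((wd v j).1 ^ 2 + (wd v j).2 ^ 2) := by
      simp [cr, rot]; ring
    rw [h4] at h3
    rcases mul_eq_zero.1 h3 with h5 | h5
    · exact ht h5
    · exact (norm2_pos hw).ne' h5
  · have m1 : v l + a • wd v l + t • rot (wd v l) ∈ Metric.thickening δ K := by
      rw [Metric.mem_thickening_iff]
      refine ⟨v l + a • wd v l, ⟨a, ⟨ha1, ha2⟩, rfl⟩, ?_⟩
      rw [dist_eq_norm]
      have : v l + a • wd v l + t • rot (wd v l) - (v l + a • wd v l) = t • rot (wd v l) := by
        abel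
      rw [this, norm_smul, Real.norm_eq_abs]
      have h5 : |t| * ‖rot (wd v l)‖ ≤ |t| * (‖rot (wd v l)‖ + 1) := by
        apply mul_le_mul_of_nonneg_left _ (abs_nonneg _); linarith
      have h6 : |t| * (‖rot (wd v l)‖ + 1) < δ := by
        rwa [lt_div_iff₀ hr] at htd
      linarith
    have m2 : v l + a • wd v l + t • rot (wd v l) ∈ Metric.thickening δ F := by
      apply Metric.self_subset_thickening hδ
      simp only [hF, mem_iUnion]
      exact ⟨j, hjl, hj⟩
    exact Set.disjoint_left.1 hd m1 m2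

end

end Vis124
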