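import Pool.Agent.H124R2.Vis.Count

/-!
# The lower bound `N n ≥ (n / 3) ^ ⌊n / 3⌋ / 3 ^ n`
-/

namespace Vis124

open Filter

instance instFiniteQuot (n : ℕ) : Finite (Quotient (isoSetoid n)) := Quotient.finite _

theorem NGP_le_N (n : ℕ) : NGP n ≤ N n := by
  apply Set.ncard_le_ncard
  · rintro q ⟨v, P, h1, -, h3⟩
    exact ⟨v, P, h1, h3⟩
  · exact Set.toFinite _

theorem NGP_lower {n : ℕ} (hn : 4 ≤ n) : ((n : ℝ) / 3) ^ (n / 3) ≤ (NGP n : ℝ) * 3 ^ n := by
  have h1 := count (m := n - 1 - 2 * (n / 3)) (k := n / 3) (by omega) (by omega)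
  have h2 : n - 1 - 2 * (n / 3) + 2 * (n / 3) + 1 = n := by omega
  rw [h2] at h1
  have h3 : ((n - 1 - 2 * (n / 3) + 1 : ℕ) : ℝ) ^ (n / 3) ≤ (NGP n : ℝ) * 3 ^ n := by
    exact_mod_cast h1
  refine le_trans ?_ h3
  apply pow_le_pow_left₀ (by positivity)
  rw [div_le_iff₀ (by norm_num)]
  have h4 : n ≤ (n - 1 - 2 * (n / 3) + 1) * 3 := by omega
  exact_mod_cast h4

theorem NGP_pos {n : ℕ} (hn : 4 ≤ n) : 0 < NGP n := by
  have h1 := NGP_lower hn
  by_contra hc
  have h2 : NGP n = 0 := by omega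
  rw [h2] at h1
  have h3 : (0:ℝ) < ((n : ℝ) / 3) ^ (n / 3) := by
    have : (4:ℝ) ≤ n := by exact_mod_cast hn
    positivity
  simp at h1
  linarith

theorem NGP_log_lower {n : ℕ} (hn : 4 ≤ n) :
    ((n : ℝ) - 2) / 3 * (Real.logb 2 n - 2) - 2 * n ≤ Real.logb 2 (NGP n) := by
  have h1 := NGP_lower hn
  have hnr : (4:ℝ) ≤ n := by exact_mod_cast hn
  have hp : (0:ℝ) < NGP n := by exact_mod_cast NGP_pos hn
  have hl2 : (1:ℝ) < 2 := by norm_num
  have h3 : Real.logb 2 3 ≤ 2 := by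
    rw [Real.logb_le_iff_le_rpow hl2 (by norm_num)]
    norm_num
  have h30 : 0 ≤ Real.logb 2 3 := Real.logb_nonneg hl2 (by norm_num)
  have h4 := (Real.logb_le_logb_of_le hl2 (by positivity) h1)
  rw [Real.logb_mul hp.ne' (by positivity), Real.logb_pow, Real.logb_pow,
    Real.logb_div (by positivity) (by norm_num)] at h4
  have h5 : ((n : ℝ) - 2) / 3 ≤ ((n / 3 : ℕ) : ℝ) := by
    have : n ≤ 3 * (n / 3) + 2 := by omega
    have : (n : ℝ) ≤ 3 * ((n / 3 : ℕ) : ℝ) + 2 := by exact_mod_cast this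
    linarith
  have h6 : 2 ≤ Real.logb 2 n := by
    rw [Real.le_logb_iff_rpow_le hl2 (by positivity)]
    norm_num
    exact_mod_cast hn
  have h7 : ((n : ℝ) - 2) / 3 * (Real.logb 2 n - 2) ≤
      ((n / 3 : ℕ) : ℝ) * (Real.logb 2 n - Real.logb 2 3) := by
    apply mul_le_mul h5 (by linarith) (by linarith) (by positivity)
  have h8 : (n : ℝ) * Real.logb 2 3 ≤ 2 * n := by nlinarith
  linarith

/-- `log₂` of the number of visibility graphs is at least a constant times `n log₂ n`. -/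
theorem lower_bound : ∀ᶠ n : ℕ in atTop,
    1 / 4 * ((n : ℝ) * Real.logb 2 n) ≤ Real.logb 2 (NGP n) := by
  have h1 : Tendsto (fun n : ℕ => Real.logb 2 (n : ℝ)) atTop atTop :=
    (Real.tendsto_logb_atTop (by norm_num)).comp tendsto_natCast_atTop_atTop
  filter_upwards [h1.eventually_ge_atTop 40, eventually_ge_atTop 100] with n h2 h3
  have h4 := NGP_log_lower (n := n) (by omega)
  refine le_trans ?_ h4
  have h5 : (100:ℝ) ≤ n := by exact_mod_cast h3
  nlinarith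

end Vis124
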