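import Pool.Agent.H124R2.Vis.Local

/-!
# Orientation of a simple polygon
-/

namespace Vis124

open Set

variable {n : ℕ} {v : Fin n → ℝ × ℝ} {P : Set (ℝ × ℝ)}

/-- `Q` absorbs connected sets off the curve that meet it -/
def Absorbs (v : Fin n → ℝ × ℝ) (Q : Set (ℝ × ℝ)) : Prop :=
  ∀ S : Set (ℝ × ℝ), IsPreconnected S → Disjoint S (curve v) → (S ∩ Q).Nonempty → S ⊆ Q

/-- near the vertex `k` the sector on the side `σ` lies in `Q` -/
def Ev (v : Fin n → ℝ × ℝ) (Q : Set (ℝ × ℝ)) (σ : ℝ) (k : Fin n) : Prop :=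
  ∃ δ > 0, ∀ z ∈ Sec σ (wd v k) (ud v k), ‖z‖ < δ → v k + z ∈ Q

section
variable (h : IsSimplePolygon v P)
include h

theorem isClosed_P : IsClosed P := h.compact.isClosed

theorem disj_or (S : Set (ℝ × ℝ)) (hS : IsPreconnected S) (hd : Disjoint S (curve v)) :
    S ⊆ interior P ∨ S ⊆ Pᶜ := by
  apply hS.subset_or_subset isOpen_interior (isClosed_P h).isOpen_compl
  · exact Set.disjoint_left.2 fun x hx hx' => hx' (interior_subset hx)
  · intro x hx
    by_cases hxP : x ∈ P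
    · left
      by_contra hxi
      have : x ∈ frontier P := by
        rw [frontier, (isClosed_P h).closure_eq]; exact ⟨hxP, hxi⟩
      rw [h.boundary] at this
      exact Set.disjoint_left.1 hd hx this
    · exact Or.inr hxP

theorem absorbs_int : Absorbs v (interior P) := by
  intro S hS hd ⟨x, hx1, hx2⟩
  rcases disj_or h S hS hd with h1 | h1
  · exact h1
  · exact absurd (interior_subset hx2) (h1 hx1)

theorem absorbs_ext : Absorbs v Pᶜ := by
  intro S hS hd ⟨x, hx1, hx2⟩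
  rcases disj_or h S hS hd with h1 | h1
  · exact absurd (interior_subset (h1 hx1)) hx2
  · exact h1

theorem curve_subset : curve v ⊆ P := by
  rw [← h.boundary]
  exact (isClosed_P h).frontier_subset

/-- small translated sectors are connected and avoid the curve -/
theorem small_sector (σ : ℝ) (k : Fin n) : ∃ δ > 0, ∀ δ', 0 < δ' → δ' ≤ δ →
    IsPreconnected ((fun z => v k + z) '' (Sec σ (wd v k) (ud v k) ∩ Metric.ball 0 δ')) ∧
    Disjoint ((fun z => v k + z) '' (Sec σ (wd v k) (ud v k) ∩ Metric.ball 0 δ')) (curve v) := by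
  obtain ⟨δ, hδ, hl⟩ := local_vertex h k
  refine ⟨δ, hδ, ?_⟩
  intro δ' hδ' hle
  refine ⟨?_, ?_⟩
  · apply (sec_ball_preconnected (wd_ne h k) (ud_ne h k) (not_same_dir h k) hδ').image
    fun_prop
  · rw [Set.disjoint_left]
    rintro _ ⟨z, ⟨hz1, hz2⟩, rfl⟩ hc
    rw [mem_ball_zero_iff] at hz2
    rcases hl z (lt_of_lt_of_le hz2 hle) hc with ⟨a, ha, rfl⟩ | ⟨a, ha, rfl⟩
    · exact ray_w_not_mem ha hz1
    · exact ray_u_not_mem ha hz1

theorem ev_or (σ : ℝ) (k : Fin n) : Ev v (interior P) σ k ∨ Ev v Pᶜ σ k := by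
  obtain ⟨δ, hδ, hs⟩ := small_sector h σ k
  obtain ⟨h1, h2⟩ := hs δ hδ le_rfl
  rcases disj_or h _ h1 h2 with h3 | h3
  · left
    exact ⟨δ, hδ, fun z hz hzn => h3 ⟨z, ⟨hz, by rwa [mem_ball_zero_iff]⟩, rfl⟩⟩
  · right
    exact ⟨δ, hδ, fun z hz hzn => h3 ⟨z, ⟨hz, by rwa [mem_ball_zero_iff]⟩, rfl⟩⟩

/-- points near a vertex and off the curve are in one of the sectors -/
theorem near_vertex (k : Fin n) : ∃ δ > 0, ∀ z : ℝ × ℝ, ‖z‖ < δ →
    (z ∈ Sec 1 (wd v k) (ud v k) ∨ z ∈ Sec (-1) (wd v k) (ud v k)) ∨ v k + z ∈ curve v := by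
  have hw := wd_ne h k
  have hu := ud_ne h k
  have hw' : 0 < ‖wd v k‖ := norm_pos_iff.2 hw
  have hu' : 0 < ‖ud v k‖ := norm_pos_iff.2 hu
  refine ⟨min ‖wd v k‖ ‖ud v k‖, lt_min hw' hu', ?_⟩
  intro z hz
  rcases sec_trichotomy hw hu (not_same_dir h k) z with h1 | h1 | ⟨a, ha, rfl⟩ | ⟨a, ha, rfl⟩
  · exact Or.inl (Or.inl h1)
  · exact Or.inl (Or.inr h1)
  · right
    have h2 : a ≤ 1 := by
      rw [norm_smul, Real.norm_of_nonneg ha] at hz
      have h3 : a * ‖wd v k‖ < 1 * ‖wd v k‖ := by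
        rw [one_mul]; exact lt_of_lt_of_le hz (min_le_left _ _)
      exact (lt_of_mul_lt_mul_right h3 hw'.le).le
    have : v k + a • wd v k ∈ edge v k := by rw [edge_eq]; exact ⟨a, ha, h2, rfl⟩
    exact mem_iUnion.2 ⟨k, this⟩
  · right
    have h2 : a ≤ 1 := by
      rw [norm_smul, Real.norm_of_nonneg ha] at hz
      have h3 : a * ‖ud v k‖ < 1 * ‖ud v k‖ := by
        rw [one_mul]; exact lt_of_lt_of_le hz (min_le_right _ _)
      exact (lt_of_mul_lt_mul_right h3 hu'.le).le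
    have : v k + a • ud v k ∈ edge v (pd k) := by rw [edge_eq']; exact ⟨a, ha, h2, rfl⟩
    exact mem_iUnion.2 ⟨pd k, this⟩

theorem not_both_int (k : Fin n) (h1 : Ev v (interior P) 1 k) (h2 : Ev v (interior P) (-1) k) :
    False := by
  obtain ⟨δ1, hδ1, e1⟩ := h1
  obtain ⟨δ2, hδ2, e2⟩ := h2
  obtain ⟨δ3, hδ3, e3⟩ := near_vertex h k
  have hv : v k ∈ frontier P := by
    rw [h.boundary]; exact mem_iUnion.2 ⟨k, vertex_mem_edge k⟩
  rw [frontier_eq_closure_inter_closure] at hv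
  obtain ⟨q, hq, hd⟩ := Metric.mem_closure_iff.1 hv.2 (min δ1 (min δ2 δ3))
    (lt_min hδ1 (lt_min hδ2 hδ3))
  have hz : ‖q - v k‖ < min δ1 (min δ2 δ3) := by
    rwa [dist_comm, dist_eq_norm] at hd
  have hqz : v k + (q - v k) = q := by abel
  rcases e3 (q - v k) (lt_of_lt_of_le hz ((min_le_right _ _).trans (min_le_right _ _)))
    with (h4 | h4) | h4
  · have := e1 _ h4 (lt_of_lt_of_le hz (min_le_left _ _))
    rw [hqz] at this
    exact hq (interior_subset this)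
  · have := e2 _ h4 (lt_of_lt_of_le hz ((min_le_right _ _).trans (min_le_left _ _)))
    rw [hqz] at this
    exact hq (interior_subset this)
  · rw [hqz] at h4
    exact hq (curve_subset h h4)

theorem not_both_ext (k : Fin n) (h1 : Ev v Pᶜ 1 k) (h2 : Ev v Pᶜ (-1) k) : False := by
  obtain ⟨δ1, hδ1, e1⟩ := h1
  obtain ⟨δ2, hδ2, e2⟩ := h2
  obtain ⟨δ3, hδ3, e3⟩ := near_vertex h k
  have hv : v k ∈ closure (interior P) := by
    rw [h.regular]; exact curve_subset h (mem_iUnion.2 ⟨k, vertex_mem_edge k⟩)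
  obtain ⟨q, hq, hd⟩ := Metric.mem_closure_iff.1 hv (min δ1 (min δ2 δ3))
    (lt_min hδ1 (lt_min hδ2 hδ3))
  have hz : ‖q - v k‖ < min δ1 (min δ2 δ3) := by
    rwa [dist_comm, dist_eq_norm] at hd
  have hqz : v k + (q - v k) = q := by abel
  rcases e3 (q - v k) (lt_of_lt_of_le hz ((min_le_right _ _).trans (min_le_right _ _)))
    with (h4 | h4) | h4
  · have := e1 _ h4 (lt_of_lt_of_le hz (min_le_left _ _))
    rw [hqz] at this
    exact this (interior_subset hq)
  · have := e2 _ h4 (lt_of_lt_of_le hz ((min_le_right _ _).trans (min_le_left _ _)))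
    rw [hqz] at this
    exact this (interior_subset hq)
  · rw [hqz, ← h.boundary] at h4
    exact h4.2 hq

/-- The point `v l + a • wd + (t σ) • rot wd`. -/
theorem strip_in_sector_start {σ : ℝ} (hσ : σ ^ 2 = 1) (l : Fin n) {a t : ℝ} (ht : 0 < t)
    (hsm : 0 < σ * cr (wd v l) (ud v l) →
      0 < a * (σ * cr (wd v l) (ud v l)) + t * cr (rot (wd v l)) (ud v l)) :
    a • wd v l + (t * σ) • rot (wd v l) ∈ Sec σ (wd v l) (ud v l) := by
  have hn2 := norm2_pos (wd_ne h l)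
  have e1 : σ * cr (wd v l) (a • wd v l + (t * σ) • rot (wd v l)) =
      t * ((wd v l).1 ^ 2 + (wd v l).2 ^ 2) := by
    have : σ * cr (wd v l) (a • wd v l + (t * σ) • rot (wd v l)) =
      σ ^ 2 * (t * ((wd v l).1 ^ 2 + (wd v l).2 ^ 2)) := by simp [cr, rot]; ring
    rw [this, hσ, one_mul]
  have e2 : σ * cr (a • wd v l + (t * σ) • rot (wd v l)) (ud v l) =
      a * (σ * cr (wd v l) (ud v l)) + t * cr (rot (wd v l)) (ud v l) := by
    have : σ * cr (a • wd v l + (t * σ) • rot (wd v l)) (ud v l) =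
      a * (σ * cr (wd v l) (ud v l)) + σ ^ 2 * (t * cr (rot (wd v l)) (ud v l)) := by
      simp [cr, rot]; ring
    rw [this, hσ, one_mul]
  have p1 : 0 < σ * cr (wd v l) (a • wd v l + (t * σ) • rot (wd v l)) := by
    rw [e1]; exact mul_pos ht hn2
  rcases lt_or_ge 0 (σ * cr (wd v l) (ud v l)) with h1 | h1
  · left
    refine ⟨h1, p1, ?_⟩
    rw [e2]; exact hsm h1
  · right
    exact ⟨h1, Or.inl p1⟩

theorem strip_in_sector_end {σ : ℝ} (hσ : σ ^ 2 = 1) (l : Fin n) {b t : ℝ} (ht : 0 < t)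
    (hsm : 0 < σ * cr (wd v (sc l)) (ud v (sc l)) →
      0 < b * (σ * cr (wd v (sc l)) (ud v (sc l))) + t * cr (wd v (sc l)) (rot (wd v l))) :
    b • ud v (sc l) + (t * σ) • rot (wd v l) ∈ Sec σ (wd v (sc l)) (ud v (sc l)) := by
  have hn2 := norm2_pos (wd_ne h l)
  have hu : ud v (sc l) = - wd v l := by
    unfold ud wd
    rw [pd_sc]; abel
  have e1 : σ * cr (b • ud v (sc l) + (t * σ) • rot (wd v l)) (ud v (sc l)) =
      t * ((wd v l).1 ^ 2 + (wd v l).2 ^ 2) := by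
    have : σ * cr (b • ud v (sc l) + (t * σ) • rot (wd v l)) (ud v (sc l)) =
      σ ^ 2 * (t * ((wd v l).1 ^ 2 + (wd v l).2 ^ 2)) := by rw [hu]; simp [cr, rot]; ring
    rw [this, hσ, one_mul]
  have e2 : σ * cr (wd v (sc l)) (b • ud v (sc l) + (t * σ) • rot (wd v l)) =
      b * (σ * cr (wd v (sc l)) (ud v (sc l))) + t * cr (wd v (sc l)) (rot (wd v l)) := by
    have : σ * cr (wd v (sc l)) (b • ud v (sc l) + (t * σ) • rot (wd v l)) =
      b * (σ * cr (wd v (sc l)) (ud v (sc l))) +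
        σ ^ 2 * (t * cr (wd v (sc l)) (rot (wd v l))) := by
      simp [cr, rot]; ring
    rw [this, hσ, one_mul]
  have p1 : 0 < σ * cr (b • ud v (sc l) + (t * σ) • rot (wd v l)) (ud v (sc l)) := by
    rw [e1]; exact mul_pos ht hn2
  rcases lt_or_ge 0 (σ * cr (wd v (sc l)) (ud v (sc l))) with h1 | h1
  · left
    refine ⟨h1, ?_, p1⟩
    rw [e2]; exact hsm h1
  · right
    exact ⟨h1, Or.inr p1⟩

/-- along an edge the side does not change -/
theorem strip_ev {Q : Set (ℝ × ℝ)} (hQ : Absorbs v Q) {σ : ℝ} (hσ : σ ^ 2 = 1) {l : Fin n}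
    (hev : Ev v Q σ l) {a1 a2 : ℝ} (h1 : 0 < a1) (h12 : a1 ≤ a2) (h2 : a2 < 1) :
    ∃ δ > 0, ∀ a t : ℝ, a1 ≤ a → a ≤ a2 → 0 < t → t < δ →
      v l + a • wd v l + (t * σ) • rot (wd v l) ∈ Q := by
  obtain ⟨δ0, hδ0, ev⟩ := hev
  -- choose a small a0
  have hW : 0 < ‖wd v l‖ + ‖rot (wd v l)‖ + 1 := by positivity
  set a0 : ℝ := min a1 (δ0 / (2 * (‖wd v l‖ + ‖rot (wd v l)‖ + 1))) with ha0
  have ha0p : 0 < a0 := lt_min h1 (by positivity)
  have ha01 : a0 ≤ a1 := min_le_left _ _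
  obtain ⟨δ, hδ, hloc⟩ := local_edge h l (a1 := a0) (a2 := a2) ha0p h2
  have hσ1 : |σ| = 1 := by
    have : |σ| ^ 2 = 1 := by rw [sq_abs, hσ]
    have h0 := abs_nonneg σ
    nlinarith
  have hσ0 : σ ≠ 0 := by intro h0; rw [h0] at hσ; norm_num at hσ
  refine ⟨δ, hδ, ?_⟩
  -- the strip
  set S : Set (ℝ × ℝ) := (fun q : ℝ × ℝ => v l + q.1 • wd v l + (q.2 * σ) • rot (wd v l)) ''
    (Icc a0 a2 ×ˢ Ioo 0 δ) with hS
  have hSc : IsPreconnected S :=
    (isPreconnected_Icc.prod isPreconnected_Ioo).image _ (by fun_prop)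
  have hSd : Disjoint S (curve v) := by
    rw [Set.disjoint_left]
    rintro _ ⟨⟨a, t⟩, ⟨⟨ha1, ha2⟩, ht1, ht2⟩, rfl⟩
    simp only at ha1 ha2 ht1 ht2
    apply hloc a (t * σ) ha1 ha2 (mul_ne_zero ht1.ne' hσ0)
    rw [abs_mul, hσ1, mul_one, abs_of_pos ht1]; exact ht2
  -- a point of the strip in Q
  set A := σ * cr (wd v l) (ud v l) with hA
  set B := cr (rot (wd v l)) (ud v l) with hB
  obtain ⟨t, ht0, ht1, ht2, ht3⟩ : ∃ t : ℝ, 0 < t ∧ t < δ ∧ t ≤ a0 ∧
      (0 < A → 0 < a0 * A + t * B) := by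
    by_cases hApos : 0 < A
    · refine ⟨min (δ / 2) (min a0 (a0 * A / (2 * (|B| + 1)))), ?_, ?_, ?_, ?_⟩
      · apply lt_min (by linarith) (lt_min ha0p (by positivity))
      · exact lt_of_le_of_lt (min_le_left _ _) (by linarith)
      · exact (min_le_right _ _).trans (min_le_left _ _)
      · intro _
        set t := min (δ / 2) (min a0 (a0 * A / (2 * (|B| + 1)))) with ht
        have htp : 0 < t := lt_min (by linarith) (lt_min ha0p (by positivity))
        have h5 : t ≤ a0 * A / (2 * (|B| + 1)) := (min_le_right _ _).trans (min_le_right _ _)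
        have h6 : t * (2 * (|B| + 1)) ≤ a0 * A := by
          rwa [le_div_iff₀ (by positivity)] at h5
        have h7 : -(t * |B|) ≤ t * B := by
          rw [← mul_neg]; exact mul_le_mul_of_nonneg_left (neg_abs_le B) htp.le
        have h8 := mul_nonneg htp.le (abs_nonneg B)
        nlinarith
    · refine ⟨min (δ / 2) a0, lt_min (by linarith) ha0p,
        lt_of_le_of_lt (min_le_left _ _) (by linarith), min_le_right _ _, ?_⟩
      intro h5; exact absurd h5 hApos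
  have hmem : v l + a0 • wd v l + (t * σ) • rot (wd v l) ∈ S ∩ Q := by
    refine ⟨⟨(a0, t), ⟨⟨le_rfl, ha01.trans h12⟩, ht0, ht1⟩, rfl⟩, ?_⟩
    rw [add_assoc]
    apply ev _ (strip_in_sector_start h hσ l ht0 ht3)
    calc ‖a0 • wd v l + (t * σ) • rot (wd v l)‖ ≤ ‖a0 • wd v l‖ + ‖(t * σ) • rot (wd v l)‖ :=
          norm_add_le _ _
      _ = a0 * ‖wd v l‖ + t * ‖rot (wd v l)‖ := by
          rw [norm_smul, norm_smul, Real.norm_eq_abs, Real.norm_eq_abs, abs_mul, hσ1, mul_one,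
            abs_of_pos ha0p, abs_of_pos ht0]
      _ ≤ a0 * ‖wd v l‖ + a0 * ‖rot (wd v l)‖ := by
          have := mul_le_mul_of_nonneg_right ht2 (norm_nonneg (rot (wd v l)))
          linarith
      _ ≤ a0 * (‖wd v l‖ + ‖rot (wd v l)‖ + 1) := by nlinarith
      _ ≤ δ0 / (2 * (‖wd v l‖ + ‖rot (wd v l)‖ + 1)) * (‖wd v l‖ + ‖rot (wd v l)‖ + 1) :=
          mul_le_mul_of_nonneg_right (min_le_right _ _) hW.le
      _ = δ0 / 2 := by field_simp
      _ < δ0 := by linarith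
  have hsub := hQ S hSc hSd ⟨_, hmem⟩
  intro a t' ha1 ha2 ht1 ht2
  exact hsub ⟨(a, t'), ⟨⟨ha01.trans ha1, ha2⟩, ht1, ht2⟩, rfl⟩

/-- passing to the next vertex -/
theorem ev_next {Q : Set (ℝ × ℝ)} (hQ : Absorbs v Q) {σ : ℝ} (hσ : σ ^ 2 = 1) {l : Fin n}
    (hev : Ev v Q σ l) : Ev v Q σ (sc l) := by
  obtain ⟨δ1, hδ1, hs⟩ := small_sector h σ (sc l)
  obtain ⟨hc, hd⟩ := hs δ1 hδ1 le_rfl
  have hW : 0 < ‖ud v (sc l)‖ + ‖rot (wd v l)‖ + 1 := by positivity
  set b : ℝ := min (1 / 2) (δ1 / (2 * (‖ud v (sc l)‖ + ‖rot (wd v l)‖ + 1))) with hb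
  have hbp : 0 < b := lt_min (by norm_num) (by positivity)
  have hb1 : b ≤ 1 / 2 := min_le_left _ _
  obtain ⟨δ, hδ, hstrip⟩ := strip_ev h hQ hσ hev (a1 := 1 - b) (a2 := 1 - b) (by linarith) le_rfl
    (by linarith)
  have hσ1 : |σ| = 1 := by
    have : |σ| ^ 2 = 1 := by rw [sq_abs, hσ]
    have h0 := abs_nonneg σ
    nlinarith
  set A := σ * cr (wd v (sc l)) (ud v (sc l)) with hA
  set B := cr (wd v (sc l)) (rot (wd v l)) with hB
  obtain ⟨t, ht0, ht1, ht2, ht3⟩ : ∃ t : ℝ, 0 < t ∧ t < δ ∧ t ≤ b ∧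
      (0 < A → 0 < b * A + t * B) := by
    by_cases hApos : 0 < A
    · refine ⟨min (δ / 2) (min b (b * A / (2 * (|B| + 1)))), ?_, ?_, ?_, ?_⟩
      · apply lt_min (by linarith) (lt_min hbp (by positivity))
      · exact lt_of_le_of_lt (min_le_left _ _) (by linarith)
      · exact (min_le_right _ _).trans (min_le_left _ _)
      · intro _
        set t := min (δ / 2) (min b (b * A / (2 * (|B| + 1)))) with ht
        have htp : 0 < t := lt_min (by linarith) (lt_min hbp (by positivity))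
        have h5 : t ≤ b * A / (2 * (|B| + 1)) := (min_le_right _ _).trans (min_le_right _ _)
        have h6 : t * (2 * (|B| + 1)) ≤ b * A := by
          rwa [le_div_iff₀ (by positivity)] at h5
        have h7 : -(t * |B|) ≤ t * B := by
          rw [← mul_neg]; exact mul_le_mul_of_nonneg_left (neg_abs_le B) htp.le
        have h8 := mul_nonneg htp.le (abs_nonneg B)
        nlinarith
    · refine ⟨min (δ / 2) b, lt_min (by linarith) hbp,
        lt_of_le_of_lt (min_le_left _ _) (by linarith), min_le_right _ _, ?_⟩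
      intro h5; exact absurd h5 hApos
  have hpt : v l + (1 - b) • wd v l + (t * σ) • rot (wd v l) =
      v (sc l) + (b • ud v (sc l) + (t * σ) • rot (wd v l)) := by
    have hu : ud v (sc l) = - wd v l := by
      unfold ud wd
      rw [pd_sc]; abel
    have hv : v (sc l) = v l + wd v l := by unfold wd; abel
    rw [hu, hv, sub_smul, one_smul, smul_neg]; abel
  have hinQ := hstrip (1 - b) t le_rfl le_rfl ht0 ht1
  rw [hpt] at hinQ
  have hnorm : ‖b • ud v (sc l) + (t * σ) • rot (wd v l)‖ < δ1 := by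
    calc ‖b • ud v (sc l) + (t * σ) • rot (wd v l)‖ ≤
          ‖b • ud v (sc l)‖ + ‖(t * σ) • rot (wd v l)‖ := norm_add_le _ _
      _ = b * ‖ud v (sc l)‖ + t * ‖rot (wd v l)‖ := by
          rw [norm_smul, norm_smul, Real.norm_eq_abs, Real.norm_eq_abs, abs_mul, hσ1, mul_one,
            abs_of_pos hbp, abs_of_pos ht0]
      _ ≤ b * ‖ud v (sc l)‖ + b * ‖rot (wd v l)‖ := by
          have := mul_le_mul_of_nonneg_right ht2 (norm_nonneg (rot (wd v l)))
          linarith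
      _ ≤ b * (‖ud v (sc l)‖ + ‖rot (wd v l)‖ + 1) := by nlinarith
      _ ≤ δ1 / (2 * (‖ud v (sc l)‖ + ‖rot (wd v l)‖ + 1)) * (‖ud v (sc l)‖ + ‖rot (wd v l)‖ + 1) :=
          mul_le_mul_of_nonneg_right (min_le_right _ _) hW.le
      _ = δ1 / 2 := by field_simp
      _ < δ1 := by linarith
  have hsub := hQ _ hc hd ⟨_, ⟨_, ⟨strip_in_sector_end h hσ l ht0 ht3, by
    rwa [mem_ball_zero_iff]⟩, rfl⟩, hinQ⟩
  exact ⟨δ1, hδ1, fun z hz hzn => hsub ⟨z, ⟨hz, by rwa [mem_ball_zero_iff]⟩, rfl⟩⟩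

/-- A simple polygon has its interior on the left (`σ = 1`) or on the right (`σ = -1`) of its
boundary. -/
theorem oriented : ∃ σ : ℝ, (σ = 1 ∨ σ = -1) ∧
    (∀ k, Ev v (interior P) σ k) ∧ (∀ k, Ev v Pᶜ (-σ) k) := by
  have hn := h.three_le
  have k0 : Fin n := ⟨0, by omega⟩
  rcases ev_or h 1 k0 with h1 | h1
  · rcases ev_or h (-1) k0 with h2 | h2
    · exact (not_both_int h k0 h1 h2).elim
    · refine ⟨1, Or.inl rfl, ?_, ?_⟩
      · exact cyc_induction h1 fun k hk => ev_next h (absorbs_int h) (by norm_num) hk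
      · exact cyc_induction h2 fun k hk => ev_next h (absorbs_ext h) (by norm_num) hk
  · rcases ev_or h (-1) k0 with h2 | h2
    · refine ⟨-1, Or.inr rfl, ?_, ?_⟩
      · exact cyc_induction h2 fun k hk => ev_next h (absorbs_int h) (by norm_num) hk
      · rw [neg_neg]
        exact cyc_induction h1 fun k hk => ev_next h (absorbs_ext h) (by norm_num) hk
    · exact (not_both_ext h k0 h1 h2).elim

end

end Vis124
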