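import Mathlib

/-!
# The region between two graphs
-/

namespace Vis124

open Set Filter Topology

/-- the region between the graphs of `f` and `g` over `[a, b]` -/
def Reg (f g : ℝ → ℝ) (a b : ℝ) : Set (ℝ × ℝ) :=
  {p | a ≤ p.1 ∧ p.1 ≤ b ∧ f p.1 ≤ p.2 ∧ p.2 ≤ g p.1}

section
variable {f g : ℝ → ℝ} {a b : ℝ}

theorem reg_eq_image (hab : a < b) (hle : ∀ x ∈ Icc a b, f x ≤ g x) :
    Reg f g a b = (fun q : ℝ × ℝ => (q.1, f q.1 + q.2 * (g q.1 - f q.1))) '' (Icc a b ×ˢ Icc 0 1) := by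
  ext ⟨x, y⟩
  simp only [Reg, mem_setOf_eq, mem_image, mem_prod, mem_Icc, Prod.mk.injEq, Prod.exists]
  constructor
  · rintro ⟨h1, h2, h3, h4⟩
    rcases eq_or_lt_of_le (hle x ⟨h1, h2⟩) with h | h
    · refine ⟨x, 0, ⟨⟨h1, h2⟩, le_refl _, zero_le_one⟩, rfl, ?_⟩
      nlinarith
    · refine ⟨x, (y - f x) / (g x - f x), ⟨⟨h1, h2⟩, ?_, ?_⟩, rfl, ?_⟩
      · apply div_nonneg <;> linarith
      · rw [div_le_one (by linarith)]; linarith
      · rw [div_mul_cancel₀ _ (by linarith : g x - f x ≠ 0).symm.symm]; ring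
  · rintro ⟨x', t, ⟨⟨h1, h2⟩, h3, h4⟩, rfl, rfl⟩
    have := hle x' ⟨h1, h2⟩
    refine ⟨h1, h2, ?_, ?_⟩
    · nlinarith
    · nlinarith

theorem isCompact_reg (hf : Continuous f) (hg : Continuous g) (hab : a < b)
    (hle : ∀ x ∈ Icc a b, f x ≤ g x) : IsCompact (Reg f g a b) := by
  rw [reg_eq_image hab hle]
  apply (isCompact_Icc.prod isCompact_Icc).image
  fun_prop

/-- the open region -/
def RegO (f g : ℝ → ℝ) (a b : ℝ) : Set (ℝ × ℝ) :=
  {p | a < p.1 ∧ p.1 < b ∧ f p.1 < p.2 ∧ p.2 < g p.1}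

theorem isOpen_regO (hf : Continuous f) (hg : Continuous g) : IsOpen (RegO f g a b) := by
  have h1 : IsOpen {p : ℝ × ℝ | a < p.1} := isOpen_lt continuous_const continuous_fst
  have h2 : IsOpen {p : ℝ × ℝ | p.1 < b} := isOpen_lt continuous_fst continuous_const
  have h3 : IsOpen {p : ℝ × ℝ | f p.1 < p.2} := isOpen_lt (hf.comp continuous_fst) continuous_snd
  have h4 : IsOpen {p : ℝ × ℝ | p.2 < g p.1} := isOpen_lt continuous_snd (hg.comp continuous_fst)
  exact h1.inter (h2.inter (h3.inter h4))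

theorem regO_subset : RegO f g a b ⊆ Reg f g a b :=
  fun _ h => ⟨h.1.le, h.2.1.le, h.2.2.1.le, h.2.2.2.le⟩

theorem interior_reg (hf : Continuous f) (hg : Continuous g) :
    interior (Reg f g a b) = RegO f g a b := by
  apply Subset.antisymm
  · rintro ⟨x, y⟩ hp
    have hp' := interior_subset hp
    obtain ⟨h1, h2, h3, h4⟩ := hp'
    simp only at h1 h2 h3 h4
    rw [mem_interior_iff_mem_nhds, Metric.mem_nhds_iff] at hp
    obtain ⟨ε, hε, hb⟩ := hp
    have key : ∀ u v : ℝ, |u| < ε → |v| < ε → (x + u, y + v) ∈ Reg f g a b := by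
      intro u v hu hv
      apply hb
      rw [Metric.mem_ball, Prod.dist_eq]
      simp only [Real.dist_eq]
      apply max_lt
      · simpa using hu
      · simpa using hv
    have he : |ε / 2| < ε := by rw [abs_of_pos (by linarith)]; linarith
    have he' : |-(ε / 2)| < ε := by rw [abs_neg]; exact he
    have h0 : |(0:ℝ)| < ε := by simpa using hε
    refine ⟨?_, ?_, ?_, ?_⟩
    · have := (key (-(ε/2)) 0 he' h0).1
      simp only at this ⊢; linarith
    · have := (key (ε/2) 0 he h0).2.1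
      simp only at this ⊢; linarith
    · have := (key 0 (-(ε/2)) h0 he').2.2.1
      simp only [add_zero] at this ⊢; linarith
    · have := (key 0 (ε/2) h0 he).2.2.2
      simp only [add_zero] at this ⊢; linarith
  · exact interior_maximal regO_subset (isOpen_regO hf hg)

theorem closure_regO (hf : Continuous f) (hg : Continuous g) (hab : a < b)
    (hle : ∀ x ∈ Icc a b, f x ≤ g x) (hlt : ∀ x ∈ Ioo a b, f x < g x) :
    closure (RegO f g a b) = Reg f g a b := by
  apply Subset.antisymm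
  · exact closure_minimal regO_subset (isCompact_reg hf hg hab hle).isClosed
  · rw [reg_eq_image hab hle]
    have h1 : Icc a b ×ˢ Icc (0:ℝ) 1 = closure (Ioo a b ×ˢ Ioo (0:ℝ) 1) := by
      rw [closure_prod_eq, closure_Ioo hab.ne, closure_Ioo zero_ne_one]
    rw [h1]
    refine (image_closure_subset_closure_image (by fun_prop)).trans (closure_mono ?_)
    rintro _ ⟨⟨x, t⟩, ⟨⟨hx1, hx2⟩, ht1, ht2⟩, rfl⟩
    have := hlt x ⟨hx1, hx2⟩
    simp only at ht1 ht2 hx1 hx2
    refine ⟨hx1, hx2, ?_, ?_⟩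
    · simp only; nlinarith
    · simp only; nlinarith

theorem frontier_reg (hf : Continuous f) (hg : Continuous g) (hab : a < b)
    (hle : ∀ x ∈ Icc a b, f x ≤ g x) (hfa : f a = g a) (hfb : f b = g b) :
    frontier (Reg f g a b) =
      {p | a ≤ p.1 ∧ p.1 ≤ b ∧ (p.2 = f p.1 ∨ p.2 = g p.1)} := by
  rw [frontier, (isCompact_reg hf hg hab hle).isClosed.closure_eq, interior_reg hf hg]
  ext ⟨x, y⟩
  simp only [mem_diff, Reg, RegO, mem_setOf_eq, not_and, not_lt]
  constructor
  · rintro ⟨⟨h1, h2, h3, h4⟩, h5⟩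
    refine ⟨h1, h2, ?_⟩
    rcases eq_or_lt_of_le h1 with h | h
    · subst h; left; linarith
    rcases eq_or_lt_of_le h2 with h' | h'
    · subst h'; left; linarith
    rcases eq_or_lt_of_le h3 with h'' | h''
    · left; exact h''.symm
    · right; exact le_antisymm h4 (h5 h h' h'')
  · rintro ⟨h1, h2, h3⟩
    have := hle x ⟨h1, h2⟩
    refine ⟨⟨h1, h2, ?_, ?_⟩, ?_⟩
    · rcases h3 with h | h <;> rw [h]; exact this
    · rcases h3 with h | h <;> rw [h]; exact this
    · intro _ _ h4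
      rcases h3 with h | h
      · exact absurd h4 (by rw [h]; exact lt_irrefl _)
      · exact h.ge

end

end Vis124
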