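import Pool.Agent.H124R2.Vis.Defs
import Pool.Agent.H124R2.Vis.Region

/-!
# Polygons bounded below by an `x`-monotone chain and above by one edge
-/

namespace Vis124

open Set

/-- height at `x` of the line through `A` and `B` -/
noncomputable def lineH (A B : ℝ × ℝ) (x : ℝ) : ℝ := A.2 + (B.2 - A.2) / (B.1 - A.1) * (x - A.1)

theorem lineH_left (A B : ℝ × ℝ) : lineH A B A.1 = A.2 := by simp [lineH]

theorem lineH_right {A B : ℝ × ℝ} (h : A.1 < B.1) : lineH A B B.1 = B.2 := by
  unfold lineH
  rw [div_mul_cancel₀ _ (by linarith : B.1 - A.1 ≠ 0).symm.symm]; ring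

theorem segment_eq_graph {A B : ℝ × ℝ} (h : A.1 < B.1) :
    segment ℝ A B = {p | A.1 ≤ p.1 ∧ p.1 ≤ B.1 ∧ p.2 = lineH A B p.1} := by
  have h0 : B.1 - A.1 ≠ 0 := by linarith
  have h1 : 0 < B.1 - A.1 := by linarith
  rw [segment_eq_image]
  ext ⟨x, y⟩
  simp only [mem_image, mem_Icc, mem_setOf_eq]
  constructor
  · rintro ⟨t, ⟨ht0, ht1⟩, h2⟩
    have hx : (1 - t) * A.1 + t * B.1 = x := by simpa using congrArg Prod.fst h2
    have hy : (1 - t) * A.2 + t * B.2 = y := by simpa using congrArg Prod.snd h2
    refine ⟨by nlinarith, by nlinarith, ?_⟩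
    unfold lineH
    rw [← hx, ← hy]
    field_simp
    ring
  · rintro ⟨h2, h3, h4⟩
    refine ⟨(x - A.1) / (B.1 - A.1), ⟨div_nonneg (by linarith) h1.le, by
      rw [div_le_one h1]; linarith⟩, ?_⟩
    ext
    · simp only [Prod.fst_add, Prod.smul_fst, smul_eq_mul]
      field_simp
      ring
    · simp only [Prod.snd_add, Prod.smul_snd, smul_eq_mul]
      rw [h4]; unfold lineH
      field_simp
      ring

/-- affine functions: inequality at the endpoints gives inequality inside -/
theorem affine_le {p s q p' s' q' u v x : ℝ} (hu : u ≤ x) (hv : x ≤ v) (huv : u < v)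
    (h1 : p + s * (u - q) ≤ p' + s' * (u - q')) (h2 : p + s * (v - q) ≤ p' + s' * (v - q')) :
    p + s * (x - q) ≤ p' + s' * (x - q') := by
  have e1 := mul_le_mul_of_nonneg_right h1 (by linarith : 0 ≤ v - x)
  have e2 := mul_le_mul_of_nonneg_right h2 (by linarith : 0 ≤ x - u)
  have h3 : 0 < v - u := by linarith
  by_contra hc
  push Not at hc
  have e3 := mul_lt_mul_of_pos_right hc h3
  nlinarith

theorem affine_lt {p s q p' s' q' u v x : ℝ} (hu : u ≤ x) (hv : x ≤ v) (huv : u < v)
    (h1 : p + s * (u - q) ≤ p' + s' * (u - q')) (h2 : p + s * (v - q) ≤ p' + s' * (v - q'))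
    (h3 : (x < v ∧ p + s * (u - q) < p' + s' * (u - q')) ∨
      (u < x ∧ p + s * (v - q) < p' + s' * (v - q'))) :
    p + s * (x - q) < p' + s' * (x - q') := by
  have h5 : 0 < v - u := by linarith
  by_contra hc
  push Not at hc
  have e3 := mul_le_mul_of_nonneg_right hc h5.le
  rcases h3 with ⟨h4, h3⟩ | ⟨h4, h3⟩
  · have e1 := mul_lt_mul_of_pos_right h3 (by linarith : 0 < v - x)
    have e2 := mul_le_mul_of_nonneg_right h2 (by linarith : 0 ≤ x - u)
    nlinarith
  · have e1 := mul_le_mul_of_nonneg_right h1 (by linarith : 0 ≤ v - x)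
    have e2 := mul_lt_mul_of_pos_right h3 (by linarith : 0 < x - u)
    nlinarith

/-- slope of the `i`-th piece -/
noncomputable def slp (w : ℕ → ℝ × ℝ) (i : ℕ) : ℝ :=
  ((w (i + 1)).2 - (w i).2) / ((w (i + 1)).1 - (w i).1)

/-- The piecewise linear function with graph through `w 0, …, w M`. -/
noncomputable def pl (w : ℕ → ℝ × ℝ) (M : ℕ) (x : ℝ) : ℝ :=
  (w 0).2 + ∑ i ∈ Finset.range M, slp w i * max 0 (min (x - (w i).1) ((w (i + 1)).1 - (w i).1))

theorem continuous_pl (w : ℕ → ℝ × ℝ) (M : ℕ) : Continuous (pl w M) := by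
  unfold pl
  fun_prop

section
variable {w : ℕ → ℝ × ℝ} {M : ℕ}

theorem mono_of (hx : ∀ i, i < M → (w i).1 < (w (i + 1)).1) {i j : ℕ} (hij : i ≤ j) (hj : j ≤ M) :
    (w i).1 ≤ (w j).1 := by
  induction j, hij using Nat.le_induction with
  | base => exact le_refl _
  | succ j hij ih => exact (ih (by omega)).trans (hx j (by omega)).le

theorem smono_of (hx : ∀ i, i < M → (w i).1 < (w (i + 1)).1) {i j : ℕ} (hij : i < j) (hj : j ≤ M) :
    (w i).1 < (w j).1 :=
  lt_of_lt_of_le (hx i (by omega)) (mono_of hx hij hj)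

theorem pl_on_piece (hx : ∀ i, i < M → (w i).1 < (w (i + 1)).1) {i : ℕ} (hi : i < M) {x : ℝ}
    (h1 : (w i).1 ≤ x) (h2 : x ≤ (w (i + 1)).1) :
    pl w M x = (w i).2 + slp w i * (x - (w i).1) := by
  have key1 : ∀ j, j ≤ i →
      ∑ k ∈ Finset.range j, slp w k * max 0 (min (x - (w k).1) ((w (k + 1)).1 - (w k).1))
        = (w j).2 - (w 0).2 := by
    intro j
    induction j with
    | zero => intro _; simp
    | succ j ih =>
      intro hj
      rw [Finset.sum_range_succ, ih (by omega)]
      have h3 := hx j (by omega)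
      have h4 : (w (j + 1)).1 ≤ x := (mono_of hx hj (by omega)).trans h1
      rw [min_eq_right (by linarith), max_eq_right (by linarith)]
      unfold slp
      rw [div_mul_cancel₀ _ (by linarith : (w (j + 1)).1 - (w j).1 ≠ 0).symm.symm]
      ring
  have key2 : ∀ j, i + 1 ≤ j → j ≤ M →
      ∑ k ∈ Finset.range j, slp w k * max 0 (min (x - (w k).1) ((w (k + 1)).1 - (w k).1))
        = (w i).2 - (w 0).2 + slp w i * (x - (w i).1) := by
    intro j hj
    induction j, hj using Nat.le_induction with
    | base =>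
      intro _
      rw [Finset.sum_range_succ, key1 i le_rfl, min_eq_left (by linarith),
        max_eq_right (by linarith)]
    | succ j hj ih =>
      intro hjM
      rw [Finset.sum_range_succ, ih (by omega)]
      have h4 : x ≤ (w j).1 := h2.trans (mono_of hx hj (by omega))
      have h5 : min (x - (w j).1) ((w (j + 1)).1 - (w j).1) ≤ 0 :=
        (min_le_left _ _).trans (by linarith)
      rw [max_eq_left h5]; ring
  unfold pl
  rw [key2 M hi le_rfl]; ring

theorem pl_vertex (hM : 0 < M) (hx : ∀ i, i < M → (w i).1 < (w (i + 1)).1) {i : ℕ} (hi : i ≤ M) :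
    pl w M (w i).1 = (w i).2 := by
  rcases Nat.lt_or_ge i M with h | h
  · rw [pl_on_piece hx h le_rfl (hx i h).le]; ring
  · have : i = M := le_antisymm hi h
    subst this
    obtain ⟨j, rfl⟩ : ∃ j, i = j + 1 := ⟨i - 1, by omega⟩
    have h3 := hx j (by omega)
    rw [pl_on_piece hx (Nat.lt_succ_self j) h3.le le_rfl]
    unfold slp
    rw [div_mul_cancel₀ _ (by linarith : (w (j + 1)).1 - (w j).1 ≠ 0).symm.symm]
    ring

theorem exists_piece {a b : ℕ} (hab : a < b) {x : ℝ} (h1 : (w a).1 ≤ x) (h2 : x ≤ (w b).1) :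
    ∃ i, a ≤ i ∧ i < b ∧ (w i).1 ≤ x ∧ x ≤ (w (i + 1)).1 := by
  induction b, (show a + 1 ≤ b from hab) using Nat.le_induction with
  | base => exact ⟨a, le_rfl, Nat.lt_succ_self a, h1, h2⟩
  | succ b hb ih =>
    rcases le_total x (w b).1 with h | h
    · obtain ⟨i, hi1, hi2, hi3⟩ := ih (by omega) h
      exact ⟨i, hi1, by omega, hi3⟩
    · exact ⟨b, by omega, Nat.lt_succ_self b, h, h2⟩

theorem edge_graph (hx : ∀ i, i < M → (w i).1 < (w (i + 1)).1) {i : ℕ} (hi : i < M) :
    segment ℝ (w i) (w (i + 1)) =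
      {p | (w i).1 ≤ p.1 ∧ p.1 ≤ (w (i + 1)).1 ∧ p.2 = pl w M p.1} := by
  rw [segment_eq_graph (hx i hi)]
  ext ⟨x, y⟩
  simp only [mem_setOf_eq]
  constructor
  · rintro ⟨h1, h2, h3⟩
    exact ⟨h1, h2, by rw [h3, pl_on_piece hx hi h1 h2]; rfl⟩
  · rintro ⟨h1, h2, h3⟩
    exact ⟨h1, h2, by rw [h3, pl_on_piece hx hi h1 h2]; rfl⟩

variable {α β : ℝ}

theorem vertex_le_top (h0 : (w 0).2 = α * (w 0).1 + β)
    (h1 : (w M).2 = α * (w M).1 + β) (hlt : ∀ i, 0 < i → i < M → (w i).2 < α * (w i).1 + β)
    {i : ℕ} (hi : i ≤ M) : (w i).2 ≤ α * (w i).1 + β := by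
  rcases Nat.eq_zero_or_pos i with h | h
  · subst h; exact h0.le
  · rcases Nat.lt_or_ge i M with h' | h'
    · exact (hlt i h h').le
    · have : i = M := le_antisymm hi h'
      subst this; exact h1.le

theorem pl_lt_top (hM : 2 ≤ M) (hx : ∀ i, i < M → (w i).1 < (w (i + 1)).1)
    (h0 : (w 0).2 = α * (w 0).1 + β)
    (h1 : (w M).2 = α * (w M).1 + β) (hlt : ∀ i, 0 < i → i < M → (w i).2 < α * (w i).1 + β)
    {x : ℝ} (hx1 : (w 0).1 < x) (hx2 : x < (w M).1) : pl w M x < α * x + β := by
  obtain ⟨i, -, hi, h2, h3⟩ := exists_piece (w := w) (show 0 < M by omega) hx1.le hx2.le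
  rw [pl_on_piece hx hi h2 h3]
  have h4 := vertex_le_top h0 h1 hlt (i := i) hi.le
  have h5 := vertex_le_top h0 h1 hlt (i := i + 1) hi
  have h6 := hx i hi
  have h7 : (w i).2 + slp w i * ((w (i + 1)).1 - (w i).1) = (w (i + 1)).2 := by
    unfold slp
    rw [div_mul_cancel₀ _ (by linarith : (w (i + 1)).1 - (w i).1 ≠ 0).symm.symm]; ring
  have h8 : α * x + β = β + α * (x - 0) := by ring
  rw [h8]
  apply affine_lt h2 h3 h6
  · have : (w i).2 + slp w i * ((w i).1 - (w i).1) = (w i).2 := by ring
    rw [this]; linarith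
  · rw [h7]; linarith
  · rcases eq_or_lt_of_le h3 with h | h
    · -- x is the vertex i + 1
      right
      refine ⟨by rw [h]; exact h6, ?_⟩
      rw [h7]
      have h9 : i + 1 < M := by
        by_contra hc
        have : i + 1 = M := by omega
        rw [this] at h
        linarith
      have := hlt (i + 1) (by omega) h9
      linarith
    · rcases Nat.eq_zero_or_pos i with hi0 | hi0
      · right
        subst hi0
        refine ⟨hx1, ?_⟩
        rw [h7]
        have := hlt (0 + 1) (by omega) (by omega)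
        linarith
      · left
        refine ⟨h, ?_⟩
        have : (w i).2 + slp w i * ((w i).1 - (w i).1) = (w i).2 := by ring
        rw [this]
        have := hlt i hi0 hi
        linarith

theorem pl_le_top (hM : 2 ≤ M) (hx : ∀ i, i < M → (w i).1 < (w (i + 1)).1)
    (h0 : (w 0).2 = α * (w 0).1 + β)
    (h1 : (w M).2 = α * (w M).1 + β) (hlt : ∀ i, 0 < i → i < M → (w i).2 < α * (w i).1 + β)
    {x : ℝ} (hx1 : (w 0).1 ≤ x) (hx2 : x ≤ (w M).1) : pl w M x ≤ α * x + β := by
  rcases eq_or_lt_of_le hx1 with h | h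
  · rw [← h, pl_vertex (by omega) hx (Nat.zero_le _), h0]
  · rcases eq_or_lt_of_le hx2 with h' | h'
    · rw [h', pl_vertex (by omega) hx le_rfl, h1]
    · exact (pl_lt_top hM hx h0 h1 hlt h h').le

/-- The terrain polygon. -/
theorem terrain_isSimplePolygon (hM : 2 ≤ M) (hx : ∀ i, i < M → (w i).1 < (w (i + 1)).1)
    (h0 : (w 0).2 = α * (w 0).1 + β)
    (h1 : (w M).2 = α * (w M).1 + β) (hlt : ∀ i, 0 < i → i < M → (w i).2 < α * (w i).1 + β) :
    IsSimplePolygon (fun i : Fin (M + 1) => w i)
      (Reg (pl w M) (fun x => α * x + β) (w 0).1 (w M).1) := by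
  have hab : (w 0).1 < (w M).1 := smono_of hx (by omega) le_rfl
  have hg : Continuous (fun x : ℝ => α * x + β) := by fun_prop
  have hle : ∀ x ∈ Icc (w 0).1 (w M).1, pl w M x ≤ α * x + β :=
    fun x hx' => pl_le_top hM hx h0 h1 hlt hx'.1 hx'.2
  have hedge : ∀ i : Fin (M + 1), (i : ℕ) < M →
      edge (fun i : Fin (M + 1) => w i) i =
        {p | (w i).1 ≤ p.1 ∧ p.1 ≤ (w (i + 1)).1 ∧ p.2 = pl w M p.1} := by
    intro i hi
    have : finRotate (M + 1) i = ⟨i + 1, by omega⟩ := by
      have := finRotate_of_lt (n := M) (k := i) hi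
      simpa using this
    rw [edge, this]
    exact edge_graph hx hi
  have hlast : edge (fun i : Fin (M + 1) => w i) (Fin.last M) =
        {p | (w 0).1 ≤ p.1 ∧ p.1 ≤ (w M).1 ∧ p.2 = α * p.1 + β} := by
    rw [edge, finRotate_last]
    simp only [Fin.val_last, Fin.coe_ofNat_eq_mod, Nat.zero_mod]
    rw [segment_symm, segment_eq_graph hab]
    ext ⟨x, y⟩
    simp only [mem_setOf_eq]
    have : lineH (w 0) (w M) x = α * x + β := by
      unfold lineH
      rw [h0, h1]
      have : (w M).1 - (w 0).1 ≠ 0 := by linarith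
      field_simp
      ring
    rw [this]
  refine ⟨by omega, ?_, ?_, isCompact_reg (continuous_pl w M) hg hab hle, ?_, ?_⟩
  · intro i j hij
    have h2 : (w i).1 = (w j).1 := congrArg Prod.fst hij
    rcases lt_trichotomy (i : ℕ) j with h | h | h
    · exact absurd h2 (smono_of hx h (by omega)).ne
    · exact Fin.ext h
    · exact absurd h2 (smono_of hx h (by omega)).ne'
  · -- simplicity
    have key : ∀ i j : Fin (M + 1), i < j →
        edge (fun i : Fin (M + 1) => w i) i ∩ edge (fun i : Fin (M + 1) => w i) j ⊆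
          {w i, w (finRotate (M + 1) i)} ∩ {w j, w (finRotate (M + 1) j)} := by
      intro i j hij
      have hiM : (i : ℕ) < M := by
        have h2 : (i : ℕ) < j := hij
        omega
      have hri : finRotate (M + 1) i = ⟨i + 1, by omega⟩ := by
        have := finRotate_of_lt (n := M) (k := i) hiM
        simpa using this
      rw [hedge i hiM, hri]
      rcases Nat.lt_or_ge (j : ℕ) M with hj | hj
      · have hrj : finRotate (M + 1) j = ⟨j + 1, by omega⟩ := by
          have := finRotate_of_lt (n := M) (k := j) hj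
          simpa using this
        rw [hedge j hj, hrj]
        rintro ⟨x, y⟩ ⟨⟨h2, h3, h4⟩, ⟨h5, h6, h7⟩⟩
        simp only at h2 h3 h4 h5 h6 h7
        have h8 : (w (i + 1)).1 ≤ (w j).1 := mono_of hx hij (by omega)
        have hjx : x = (w j).1 := by linarith
        have hwj : (x, y) = w j := by
          ext
          · exact hjx
          · simp only
            rw [h7, hjx, pl_vertex (by omega) hx hj.le]
        have hji : (i : ℕ) + 1 = j := by
          by_contra hc
          have h9 : (i : ℕ) + 1 < j := by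
            have : (i : ℕ) < j := hij
            omega
          have := smono_of hx h9 hj.le
          linarith
        refine ⟨?_, ?_⟩
        · right
          rw [hwj]
          simp only [mem_singleton_iff]
          rw [← hji]
        · left; exact hwj
      · have hjl : j = Fin.last M := by
          apply Fin.ext
          simp only [Fin.val_last]
          omega
        subst hjl
        rw [hlast, finRotate_last]
        rintro ⟨x, y⟩ ⟨⟨h2, h3, h4⟩, ⟨h5, h6, h7⟩⟩
        simp only at h2 h3 h4 h5 h6 h7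
        rcases eq_or_lt_of_le h5 with h | h
        · have hw : (x, y) = w 0 := by
            ext
            · exact h.symm
            · simp only
              rw [h7, ← h, h0]
          have hi0 : (i : ℕ) = 0 := by
            by_contra hc
            have := smono_of hx (show 0 < (i : ℕ) by omega) hiM.le
            linarith
          refine ⟨?_, ?_⟩
          · left; rw [hw, hi0]
          · right; rw [hw]; simp
        · rcases eq_or_lt_of_le h6 with h' | h'
          · have hw : (x, y) = w M := by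
              ext
              · exact h'
              · simp only
                rw [h7, h', h1]
            have hi0 : (i : ℕ) + 1 = M := by
              by_contra hc
              have := smono_of hx (show (i : ℕ) + 1 < M by omega) le_rfl
              linarith
            refine ⟨?_, ?_⟩
            · right; rw [hw]; simp [hi0]
            · left; rw [hw]; simp
          · have := pl_lt_top hM hx h0 h1 hlt h h'
            linarith
    intro i j hij
    rcases lt_or_gt_of_ne hij with h | h
    · exact key i j h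
    · rw [inter_comm, inter_comm {_, _}]
      exact key j i h
  · rw [interior_reg (continuous_pl w M) hg]
    exact closure_regO (continuous_pl w M) hg hab hle
      (fun x hx' => pl_lt_top hM hx h0 h1 hlt hx'.1 hx'.2)
  · rw [frontier_reg (continuous_pl w M) hg hab hle
      (by rw [pl_vertex (by omega) hx (Nat.zero_le _), h0])
      (by rw [pl_vertex (by omega) hx le_rfl, h1])]
    ext ⟨x, y⟩
    simp only [curve, mem_iUnion, mem_setOf_eq]
    constructor
    · rintro ⟨h2, h3, h4 | h4⟩
      · obtain ⟨i, -, hi, h5, h6⟩ := exists_piece (w := w) (show 0 < M by omega) h2 h3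
        refine ⟨⟨i, by omega⟩, ?_⟩
        rw [hedge ⟨i, by omega⟩ hi]
        exact ⟨h5, h6, h4⟩
      · refine ⟨Fin.last M, ?_⟩
        rw [hlast]
        exact ⟨h2, h3, h4⟩
    · rintro ⟨i, hi⟩
      rcases Nat.lt_or_ge (i : ℕ) M with h | h
      · rw [hedge i h] at hi
        obtain ⟨h5, h6, h4⟩ := hi
        simp only at h5 h6 h4
        exact ⟨(mono_of hx (Nat.zero_le _) h.le).trans h5, h6.trans (mono_of hx h le_rfl),
          Or.inl h4⟩
      · have hjl : i = Fin.last M := by
          apply Fin.ext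
          simp only [Fin.val_last]
          omega
        rw [hjl, hlast] at hi
        exact ⟨hi.1, hi.2.1, Or.inr hi.2.2⟩

/-- Visibility in a terrain polygon. -/
theorem segment_subset_iff (hM : 2 ≤ M) (hx : ∀ i, i < M → (w i).1 < (w (i + 1)).1)
    (h0 : (w 0).2 = α * (w 0).1 + β)
    (h1 : (w M).2 = α * (w M).1 + β) (hlt : ∀ i, 0 < i → i < M → (w i).2 < α * (w i).1 + β)
    {a b : ℕ} (hab : a < b) (hb : b ≤ M) :
    segment ℝ (w a) (w b) ⊆ Reg (pl w M) (fun x => α * x + β) (w 0).1 (w M).1 ↔
      ∀ c, a < c → c < b → (w c).2 ≤ lineH (w a) (w b) (w c).1 := by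
  have hwab := smono_of hx hab hb
  rw [segment_eq_graph hwab]
  constructor
  · intro h c hac hcb
    have h2 := h (show ((w c).1, lineH (w a) (w b) (w c).1) ∈ _ from
      ⟨(smono_of hx hac (by omega)).le, (smono_of hx hcb hb).le, rfl⟩)
    have h3 := h2.2.2.1
    simp only at h3
    rwa [pl_vertex (by omega) hx (by omega)] at h3
  · rintro h ⟨x, y⟩ ⟨h2, h3, h4⟩
    simp only at h2 h3 h4
    refine ⟨(mono_of hx (Nat.zero_le _) (by omega)).trans h2, h3.trans (mono_of hx hb le_rfl),
      ?_, ?_⟩
    · simp only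
      obtain ⟨i, hai, hib, h5, h6⟩ := exists_piece (w := w) hab h2 h3
      rw [h4, pl_on_piece hx (by omega) h5 h6]
      have key : ∀ c, a ≤ c → c ≤ b → (w c).2 ≤ lineH (w a) (w b) (w c).1 := by
        intro c hac hcb
        rcases eq_or_lt_of_le hac with h7 | h7
        · subst h7; rw [lineH_left]
        · rcases eq_or_lt_of_le hcb with h8 | h8
          · subst h8; rw [lineH_right hwab]
          · exact h c h7 h8
      have h6' := hx i (by omega)
      apply affine_le h5 h6 h6'
      · have : (w i).2 + slp w i * ((w i).1 - (w i).1) = (w i).2 := by ring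
        rw [this]
        exact key i hai hib.le
      · have h7 : (w i).2 + slp w i * ((w (i + 1)).1 - (w i).1) = (w (i + 1)).2 := by
          unfold slp
          rw [div_mul_cancel₀ _ (by linarith : (w (i + 1)).1 - (w i).1 ≠ 0).symm.symm]; ring
        rw [h7]
        exact key (i + 1) (by omega) hib
    · simp only
      rw [h4]
      have h8 : α * x + β = β + α * (x - 0) := by ring
      rw [h8]
      apply affine_le h2 h3 hwab
      · have := vertex_le_top h0 h1 hlt (i := a) (by omega)
        have h9 : (w a).2 + ((w b).2 - (w a).2) / ((w b).1 - (w a).1) * ((w a).1 - (w a).1)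
          = (w a).2 := by ring
        rw [h9]; linarith
      · have := vertex_le_top h0 h1 hlt (i := b) hb
        have h9 := lineH_right hwab
        unfold lineH at h9
        rw [h9]; linarith

end

end Vis124
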