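import Pool.Agent.H124R2.Vis.Exit
import Pool.Agent.H124R2.Vis.Lower
import Pool.Agent.Helper448.Warren

/-!
# The upper bound
-/

namespace Vis124

open Set MvPolynomial Filter

variable {n : ℕ}

/-- index set of the orientations and of the scalar products -/
abbrev Idx (n : ℕ) := Bool × Fin n × Fin n × Fin n

/-- signs of all orientations and scalar products -/
noncomputable def pat (v : Fin n → ℝ × ℝ) : Idx n → SignType := fun q =>
  SignType.sign (if q.1 then ori (v q.2.1) (v q.2.2.1) (v q.2.2.2)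
    else dotp (v q.2.1) (v q.2.2.1) (v q.2.2.2))

theorem pat_ori {v v' : Fin n → ℝ × ℝ} (h : pat v = pat v') (i j k : Fin n) :
    SignType.sign (ori (v i) (v j) (v k)) = SignType.sign (ori (v' i) (v' j) (v' k)) := by
  have := congrFun h (true, i, j, k)
  simpa [pat] using this

theorem pat_dot {v v' : Fin n → ℝ × ℝ} (h : pat v = pat v') (i j k : Fin n) :
    SignType.sign (dotp (v i) (v j) (v k)) = SignType.sign (dotp (v' i) (v' j) (v' k)) := by
  have := congrFun h (false, i, j, k)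
  simpa [pat] using this

theorem sgn_pos {x y : ℝ} (h : SignType.sign x = SignType.sign y) : 0 < x ↔ 0 < y := by
  rw [← sign_eq_one_iff, ← sign_eq_one_iff, h]

theorem sgn_neg {x y : ℝ} (h : SignType.sign x = SignType.sign y) : x < 0 ↔ y < 0 := by
  rw [← sign_eq_neg_one_iff, ← sign_eq_neg_one_iff, h]

theorem sgn_le {x y : ℝ} (h : SignType.sign x = SignType.sign y) : x ≤ 0 ↔ y ≤ 0 := by
  rw [← not_lt, ← not_lt, sgn_pos h]

theorem sgn_zero {x y : ℝ} (h : SignType.sign x = SignType.sign y) : x = 0 ↔ y = 0 := by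
  rw [← sign_eq_zero_iff (a := x), h, sign_eq_zero_iff]

theorem sgn_mul {x y x' y' : ℝ} (h : SignType.sign x = SignType.sign y)
    (h' : SignType.sign x' = SignType.sign y') :
    SignType.sign (x * x') = SignType.sign (y * y') := by
  rw [sign_mul, sign_mul, h, h']

theorem vexit_congr {v v' : Fin n → ℝ × ℝ} (h : pat v = pat v') {σ : ℝ} {i j k : Fin n}
    (he : VExit σ v i j k) : VExit σ v' i j k := by
  obtain ⟨h1, h2, h3, h4⟩ := he
  refine ⟨h1, (sgn_zero (pat_ori h i j k)).1 h2, (sgn_le (pat_dot h k i j)).1 h3, ?_⟩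
  have e1 : SignType.sign (-σ * cr (wd v k) (ud v k)) =
      SignType.sign (-σ * cr (wd v' k) (ud v' k)) :=
    sgn_mul rfl (pat_ori h k (sc k) (pd k))
  have e2 : SignType.sign (-σ * cr (wd v k) (v j - v k)) =
      SignType.sign (-σ * cr (wd v' k) (v' j - v' k)) :=
    sgn_mul rfl (pat_ori h k (sc k) j)
  have e3 : SignType.sign (-σ * cr (v j - v k) (ud v k)) =
      SignType.sign (-σ * cr (v' j - v' k) (ud v' k)) :=
    sgn_mul rfl (pat_ori h k j (pd k))
  rcases h4 with ⟨h5, h6, h7⟩ | ⟨h5, h6 | h6⟩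
  · exact Or.inl ⟨(sgn_pos e1).1 h5, (sgn_pos e2).1 h6, (sgn_pos e3).1 h7⟩
  · exact Or.inr ⟨(sgn_le e1).1 h5, Or.inl ((sgn_pos e2).1 h6)⟩
  · exact Or.inr ⟨(sgn_le e1).1 h5, Or.inr ((sgn_pos e3).1 h6)⟩

theorem eexit_congr {v v' : Fin n → ℝ × ℝ} (h : pat v = pat v') {σ : ℝ} {i j l : Fin n}
    (he : EExit σ v i j l) : EExit σ v' i j l := by
  obtain ⟨h1, h2, h3⟩ := he
  exact ⟨(sgn_pos (sgn_mul rfl (pat_ori h l (sc l) i))).1 h1,
    (sgn_neg (sgn_mul rfl (pat_ori h l (sc l) j))).1 h2,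
    (sgn_neg (sgn_mul (pat_ori h i j l) (pat_ori h i j (sc l)))).1 h3⟩

/-- side of the interior -/
def Side (σ : ℝ) (v : Fin n → ℝ × ℝ) (P : Set (ℝ × ℝ)) : Prop :=
  (∀ k, Ev v (interior P) σ k) ∧ (∀ k, Ev v Pᶜ (-σ) k)

/-- The visibility graph is determined by the signs and the side of the interior. -/
theorem visGraph_eq {v v' : Fin n → ℝ × ℝ} {P P' : Set (ℝ × ℝ)} (h : IsSimplePolygon v P)
    (h' : IsSimplePolygon v' P') {σ : ℝ} (hσ : σ = 1 ∨ σ = -1) (hs : Side σ v P)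
    (hs' : Side σ v' P') (hp : pat v = pat v') : visGraph v P = visGraph v' P' := by
  ext i j
  simp only [visGraph]
  apply and_congr_right
  intro hij
  rw [← not_iff_not]
  constructor
  · intro hnv
    apply not_visible_of_exit h' hσ hs'.2 hij
    rcases exit_of_not_visible h hσ hs.1 hs.2 hij hnv with ⟨k, hk⟩ | ⟨l, hl⟩
    · exact Or.inl ⟨k, vexit_congr hp hk⟩
    · exact Or.inr ⟨l, eexit_congr hp hl⟩
  · intro hnv
    apply not_visible_of_exit h hσ hs.2 hij
    rcases exit_of_not_visible h' hσ hs'.1 hs'.2 hij hnv with ⟨k, hk⟩ | ⟨l, hl⟩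
    · exact Or.inl ⟨k, vexit_congr hp.symm hk⟩
    · exact Or.inr ⟨l, eexit_congr hp.symm hl⟩

/-- the polynomials -/
noncomputable def poly' (q : Idx n) : MvPolynomial (Fin n × Bool) ℝ :=
  if q.1 then
    (X (q.2.2.1, false) - X (q.2.1, false)) * (X (q.2.2.2, true) - X (q.2.1, true)) -
    (X (q.2.2.1, true) - X (q.2.1, true)) * (X (q.2.2.2, false) - X (q.2.1, false))
  else
    (X (q.2.2.1, false) - X (q.2.1, false)) * (X (q.2.2.2, false) - X (q.2.1, false)) +
    (X (q.2.2.1, true) - X (q.2.1, true)) * (X (q.2.2.2, true) - X (q.2.1, true))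

theorem deg_aux (a b c d : Fin n × Bool) :
    ((X a - X b) * (X c - X d) : MvPolynomial (Fin n × Bool) ℝ).totalDegree ≤ 2 := by
  refine (totalDegree_mul _ _).trans ?_
  have h1 : ∀ a b : Fin n × Bool, (X a - X b : MvPolynomial (Fin n × Bool) ℝ).totalDegree ≤ 1 := by
    intro a b
    refine (totalDegree_sub _ _).trans ?_
    simp
  have := h1 a b
  have := h1 c d
  omega

theorem poly'_deg (q : Idx n) : (poly' q).totalDegree ≤ 2 := by
  unfold poly'
  split_ifs
  · exact (totalDegree_sub _ _).trans (max_le (deg_aux _ _ _ _) (deg_aux _ _ _ _))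
  · exact (totalDegree_add _ _).trans (max_le (deg_aux _ _ _ _) (deg_aux _ _ _ _))

/-- coordinates -/
def coor (v : Fin n → ℝ × ℝ) : Fin n × Bool → ℝ := fun p => if p.2 then (v p.1).2 else (v p.1).1

theorem pat_eq (v : Fin n → ℝ × ℝ) :
    pat v = fun q => SignType.sign (eval (coor v) (poly' q)) := by
  funext q
  unfold pat poly'
  split_ifs with h
  · congr 1
    simp [ori, cr, coor]
  · congr 1
    simp [dotp, coor]

theorem ncard_pat_le (n : ℕ) :
    (Set.range (pat : (Fin n → ℝ × ℝ) → Idx n → SignType)).ncard ≤ (16 * n ^ 3 + 2) ^ (2 * n) := by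
  have h1 := Pool.Agent.Helper448.Warren.ncard_sign_patterns_le (σ := Fin n × Bool)
    (poly' (n := n)) 2 poly'_deg
  have h2 : (Set.range (pat : (Fin n → ℝ × ℝ) → Idx n → SignType)) ⊆
      Set.range (fun x : Fin n × Bool → ℝ => fun i => SignType.sign (eval x (poly' (n := n) i))) := by
    rintro _ ⟨v, rfl⟩
    exact ⟨coor v, (pat_eq v).symm⟩
  refine (Set.ncard_le_ncard h2 (Set.toFinite _)).trans (h1.trans (le_of_eq ?_))
  simp only [Fintype.card_prod, Fintype.card_bool, Fintype.card_fin]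
  congr 1
  · ring
  · ring

/-- Labelled visibility graphs. -/
def labelled (n : ℕ) : Set (SimpleGraph (Fin n)) :=
  {G | ∃ (v : Fin n → ℝ × ℝ) (P : Set (ℝ × ℝ)), IsSimplePolygon v P ∧ G = visGraph v P}

theorem N_upper (n : ℕ) : N n ≤ 2 * (16 * n ^ 3 + 2) ^ (2 * n) := by
  classical
  -- every class comes with a side and a sign pattern
  have key : ∀ q : visClasses n, ∃ r : Bool × (Idx n → SignType),
      r.2 ∈ Set.range (pat : (Fin n → ℝ × ℝ) → Idx n → SignType) ∧
      ∃ (v : Fin n → ℝ × ℝ) (P : Set (ℝ × ℝ)), IsSimplePolygon v P ∧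
        q.1 = Quotient.mk (isoSetoid n) (visGraph v P) ∧ pat v = r.2 ∧
        Side (if r.1 then 1 else -1) v P := by
    rintro ⟨q, v, P, h1, h2⟩
    obtain ⟨σ, hσ, h3, h4⟩ := oriented h1
    rcases hσ with rfl | rfl
    · exact ⟨(true, pat v), ⟨v, rfl⟩, v, P, h1, h2, rfl, by simpa using ⟨h3, h4⟩⟩
    · exact ⟨(false, pat v), ⟨v, rfl⟩, v, P, h1, h2, rfl, by
        simp only [Bool.false_eq_true, if_false]; exact ⟨h3, h4⟩⟩
  choose r hr hv using key
  let Φ : visClasses n → Bool × (Set.range (pat : (Fin n → ℝ × ℝ) → Idx n → SignType)) :=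
    fun q => ((r q).1, ⟨(r q).2, hr q⟩)
  have hΦ : Function.Injective Φ := by
    intro q q' hqq
    have h1 : (Φ q).1 = (Φ q').1 := congrArg Prod.fst hqq
    have h2 : (Φ q).2.1 = (Φ q').2.1 := congrArg (fun x => (Prod.snd x).1) hqq
    change (r q).1 = (r q').1 at h1
    change (r q).2 = (r q').2 at h2
    obtain ⟨v, P, a1, a2, a3, a4⟩ := hv q
    obtain ⟨v', P', b1, b2, b3, b4⟩ := hv q'
    rw [← h1] at b4
    apply Subtype.ext
    rw [a2, b2]
    congr 1
    refine visGraph_eq a1 b1 ?_ a4 b4 (a3.trans (h2.trans b3.symm))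
    split_ifs
    · exact Or.inl rfl
    · exact Or.inr rfl
  have h := Nat.card_le_card_of_injective Φ hΦ
  rw [Nat.card_prod, Nat.card_coe_set_eq, Nat.card_coe_set_eq] at h
  have h2 : Nat.card Bool = 2 := by simp
  rw [h2] at h
  exact h.trans (Nat.mul_le_mul_left _ (ncard_pat_le n))

theorem upper_bound : ∀ᶠ n : ℕ in atTop,
    Real.logb 2 (N n) ≤ 20 * ((n : ℝ) * Real.logb 2 n) := by
  filter_upwards [eventually_ge_atTop 4] with n hn
  have hnr : (4:ℝ) ≤ n := by exact_mod_cast hn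
  have hl2 : (1:ℝ) < 2 := by norm_num
  have hN : 0 < N n := lt_of_lt_of_le (NGP_pos hn) (NGP_le_N n)
  have hNr : (0:ℝ) < N n := by exact_mod_cast hN
  have h1 : (N n : ℝ) ≤ 2 * (16 * (n : ℝ) ^ 3 + 2) ^ (2 * n) := by exact_mod_cast N_upper n
  have h2 := Real.logb_le_logb_of_le hl2 hNr h1
  rw [Real.logb_mul (by norm_num) (by positivity), Real.logb_pow, Real.logb_self_eq_one hl2] at h2
  have h3 : 16 * (n : ℝ) ^ 3 + 2 ≤ (n : ℝ) ^ 6 := by
    have e1 : (64:ℝ) ≤ (n : ℝ) ^ 3 := by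
      have : (4:ℝ) ^ 3 ≤ (n : ℝ) ^ 3 := pow_le_pow_left₀ (by norm_num) hnr 3
      norm_num at this; exact this
    have e2 : (n : ℝ) ^ 6 = (n : ℝ) ^ 3 * (n : ℝ) ^ 3 := by ring
    rw [e2]; nlinarith
  have h4 : Real.logb 2 (16 * (n : ℝ) ^ 3 + 2) ≤ 6 * Real.logb 2 n := by
    refine (Real.logb_le_logb_of_le hl2 (by positivity) h3).trans ?_
    rw [Real.logb_pow]; norm_num
  have h6 : 2 ≤ Real.logb 2 n := by
    rw [Real.le_logb_iff_rpow_le hl2 (by positivity)]
    norm_num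
    exact_mod_cast hn
  have h5 : ((2 * n : ℕ) : ℝ) * Real.logb 2 (16 * (n : ℝ) ^ 3 + 2) ≤
      ((2 * n : ℕ) : ℝ) * (6 * Real.logb 2 n) := mul_le_mul_of_nonneg_left h4 (by positivity)
  push_cast at h2 h5
  nlinarith

end Vis124
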